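import Pool.Agent.Lib.T3R.Det

/-!
# The determinant in characteristic 3

(helper14, problem MP_6b13af_al)
-/

set_option autoImplicit false

namespace Pool.Agent.T3R

open FreeGroup

/-- the sign of `z` -/
def sgn : F4 →* ℤˣ := FreeGroup.lift ![1, 1, -1, 1]

def g1 : F4 →* Tg (ZMod 9) := FreeGroup.lift ![⟨1, 0, 1, 0⟩, 1, ⟨-1, 0, 0, 0⟩, 1]
def g2 : F4 →* Tg (ZMod 3) := FreeGroup.lift ![⟨1, 1, 0, 0⟩, ⟨1, 0, 0, 1⟩, ⟨-1, 0, 0, 0⟩, 1]
def g3 : F4 →* Tg (ZMod 3) := FreeGroup.lift ![1, 1, ⟨-1, 0, 0, 0⟩, ⟨1, 0, 1, 0⟩]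

theorem g1_0 : g1 (of 0) = ⟨1, 0, 1, 0⟩ := by rw [g1, FreeGroup.lift_apply_of]; rfl
theorem g1_1 : g1 (of 1) = 1 := by rw [g1, FreeGroup.lift_apply_of]; rfl
theorem g1_2 : g1 (of 2) = ⟨-1, 0, 0, 0⟩ := by rw [g1, FreeGroup.lift_apply_of]; rfl
theorem g1_3 : g1 (of 3) = 1 := by rw [g1, FreeGroup.lift_apply_of]; rfl
theorem g2_0 : g2 (of 0) = ⟨1, 1, 0, 0⟩ := by rw [g2, FreeGroup.lift_apply_of]; rfl
theorem g2_1 : g2 (of 1) = ⟨1, 0, 0, 1⟩ := by rw [g2, FreeGroup.lift_apply_of]; rfl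
theorem g2_2 : g2 (of 2) = ⟨-1, 0, 0, 0⟩ := by rw [g2, FreeGroup.lift_apply_of]; rfl
theorem g2_3 : g2 (of 3) = 1 := by rw [g2, FreeGroup.lift_apply_of]; rfl
theorem g3_0 : g3 (of 0) = 1 := by rw [g3, FreeGroup.lift_apply_of]; rfl
theorem g3_1 : g3 (of 1) = 1 := by rw [g3, FreeGroup.lift_apply_of]; rfl
theorem g3_2 : g3 (of 2) = ⟨-1, 0, 0, 0⟩ := by rw [g3, FreeGroup.lift_apply_of]; rfl
theorem g3_3 : g3 (of 3) = ⟨1, 0, 1, 0⟩ := by rw [g3, FreeGroup.lift_apply_of]; rfl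

theorem s0 : sgn (of 0) = 1 := by rw [sgn, FreeGroup.lift_apply_of]; rfl
theorem s1 : sgn (of 1) = 1 := by rw [sgn, FreeGroup.lift_apply_of]; rfl
theorem s2 : sgn (of 2) = -1 := by rw [sgn, FreeGroup.lift_apply_of]; rfl
theorem s3 : sgn (of 3) = 1 := by rw [sgn, FreeGroup.lift_apply_of]; rfl

theorem lg (A : Type) [CommRing A] (f : F4 →* Tg A) (h0 : (f (of 0)).l = 1)
    (h1 : (f (of 1)).l = 1) (h2 : (f (of 2)).l = -1) (h3 : (f (of 3)).l = 1) (g : F4) :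
    (sgn g = 1 ∧ (f g).l = 1) ∨ (sgn g = -1 ∧ (f g).l = -1) := by
  have h : (Tg.lh (K := A)).comp f = (Units.map (Int.castRingHom A).toMonoidHom).comp sgn := by
    refine FreeGroup.ext_hom _ _ fun i => ?_
    fin_cases i
    · show (f (of 0)).l = Units.map (Int.castRingHom A).toMonoidHom (sgn (of 0))
      rw [h0, s0, _root_.map_one]
    · show (f (of 1)).l = Units.map (Int.castRingHom A).toMonoidHom (sgn (of 1))
      rw [h1, s1, _root_.map_one]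
    · show (f (of 2)).l = Units.map (Int.castRingHom A).toMonoidHom (sgn (of 2))
      rw [h2, s2]
      ext
      simp
    · show (f (of 3)).l = Units.map (Int.castRingHom A).toMonoidHom (sgn (of 3))
      rw [h3, s3, _root_.map_one]
  have h4 : (f g).l = Units.map (Int.castRingHom A).toMonoidHom (sgn g) := DFunLike.congr_fun h g
  rcases Int.units_eq_one_or (sgn g) with h5 | h5
  · left
    refine ⟨h5, ?_⟩
    rw [h4, h5, _root_.map_one]
  · right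
    refine ⟨h5, ?_⟩
    rw [h4, h5]
    ext
    simp

theorem lg1 (g : F4) : (sgn g = 1 ∧ (g1 g).l = 1) ∨ (sgn g = -1 ∧ (g1 g).l = -1) :=
  lg _ g1 (by rw [g1_0]) (by rw [g1_1]; rfl) (by rw [g1_2]) (by rw [g1_3]; rfl) g
theorem lg2 (g : F4) : (sgn g = 1 ∧ (g2 g).l = 1) ∨ (sgn g = -1 ∧ (g2 g).l = -1) :=
  lg _ g2 (by rw [g2_0]) (by rw [g2_1]) (by rw [g2_2]) (by rw [g2_3]; rfl) g
theorem lg3 (g : F4) : (sgn g = 1 ∧ (g3 g).l = 1) ∨ (sgn g = -1 ∧ (g3 g).l = -1) :=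
  lg _ g3 (by rw [g3_0]; rfl) (by rw [g3_1]; rfl) (by rw [g3_2]) (by rw [g3_3]) g

theorem w1x : g1 (of 0 ^ 3) = ⟨1, 0, 3, 0⟩ := by
  rw [map_pow, g1_0, pow_succ, pow_two]
  ext
  · simp
  · simp
  · simp only [Tg.mul_q, Tg.mul_l, Tg.mul_p, Units.val_one, Units.val_mul]; ring
  · simp

theorem w1z : g1 (of 2 ^ 2) = 1 := by
  rw [map_pow, g1_2, pow_two]
  ext <;> simp

theorem w1c : g1 cxy = 1 := by
  rw [cxy, _root_.map_mul, _root_.map_mul, _root_.map_mul, _root_.map_inv, _root_.map_inv, g1_1]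
  group

theorem w1d : g1 czt = 1 := by
  rw [czt, _root_.map_mul, _root_.map_mul, _root_.map_mul, _root_.map_inv, _root_.map_inv, g1_3]
  group

theorem w2x : g2 (of 0 ^ 3) = 1 := by
  rw [map_pow, g2_0, pow_succ, pow_two]
  ext
  · simp
  · simp only [Tg.mul_p, Units.val_one, one_mul, Tg.one_p, Tg.mul_l]; decide
  · simp
  · simp

theorem w2z : g2 (of 2 ^ 2) = 1 := by
  rw [map_pow, g2_2, pow_two]
  ext <;> simp

theorem w2c : g2 cxy = ⟨1, 0, 1, 0⟩ := by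
  rw [cxy, _root_.map_mul, _root_.map_mul, _root_.map_mul, _root_.map_inv, _root_.map_inv, g2_0,
    g2_1]
  ext <;> simp

theorem w2d : g2 czt = 1 := by
  rw [czt, _root_.map_mul, _root_.map_mul, _root_.map_mul, _root_.map_inv, _root_.map_inv, g2_3]
  group

theorem w3x : g3 (of 0 ^ 3) = 1 := by rw [map_pow, g3_0, one_pow]

theorem w3z : g3 (of 2 ^ 2) = 1 := by
  rw [map_pow, g3_2, pow_two]
  ext <;> simp

theorem w3c : g3 cxy = 1 := by
  rw [cxy, _root_.map_mul, _root_.map_mul, _root_.map_mul, _root_.map_inv, _root_.map_inv, g3_1]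
  group

theorem w3d : g3 czt = ⟨1, 0, 1, 0⟩ := by
  rw [czt, _root_.map_mul, _root_.map_mul, _root_.map_mul, _root_.map_inv, _root_.map_inv, g3_2,
    g3_3]
  ext
  · simp
  · simp
  · simp only [Tg.mul_q, Tg.mul_l, Tg.mul_p, Tg.inv_q, Tg.inv_l, Tg.inv_p, Tg.inv_u,
      Units.val_mul, Units.val_one, inv_one, Units.val_neg]
    decide
  · simp

/-- `3 a ↦ a` -/
def dl (a : ZMod 9) : ZMod 3 := ((a.val / 3 : ℕ) : ZMod 3)

theorem dl_add : ∀ a b : ZMod 9, dl (3 * a + 3 * b) = dl (3 * a) + dl (3 * b) := by decide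
theorem dl_neg : ∀ a : ZMod 9, dl (-1 * (3 * a)) = -1 * dl (3 * a) := by decide

theorem dl3 : dl 3 ≠ 0 := by decide
theorem one3 : (1 : ZMod 3) ≠ 0 := by decide
theorem m13 : (-1 : (ZMod 3)ˣ) ≠ 1 := by decide

/-- the three functionals in characteristic 3 -/
def ph3 (i : Fin 3) (g : F4) : ZMod 3 := ![dl (g1 g).q, (g2 g).q, (g3 g).q] i

/-- the character -/
def c3 (g : F4) : ZMod 3 := ((sgn g : ℤ) : ZMod 3)

theorem hf1 : ∀ ρ ∈ ({FreeGroup.of 0 ^ 3, FreeGroup.of 2 ^ 2, cxy, czt} : Set F4),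
    g1 ρ ∈ Tg.Z (Ideal.span ({3} : Set (ZMod 9))) := by
  rintro ρ (rfl | rfl | rfl | rfl)
  · rw [w1x]; exact ⟨rfl, rfl, rfl, Ideal.subset_span rfl⟩
  · rw [w1z]; exact Subgroup.one_mem _
  · rw [w1c]; exact Subgroup.one_mem _
  · rw [w1d]; exact Subgroup.one_mem _

theorem hf2 : ∀ ρ ∈ ({FreeGroup.of 0 ^ 3, FreeGroup.of 2 ^ 2, cxy, czt} : Set F4),
    g2 ρ ∈ Tg.Z (⊤ : Ideal (ZMod 3)) := by
  rintro ρ (rfl | rfl | rfl | rfl)
  · rw [w2x]; exact Subgroup.one_mem _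
  · rw [w2z]; exact Subgroup.one_mem _
  · rw [w2c]; exact ⟨rfl, rfl, rfl, Submodule.mem_top⟩
  · rw [w2d]; exact Subgroup.one_mem _

theorem hf3 : ∀ ρ ∈ ({FreeGroup.of 0 ^ 3, FreeGroup.of 2 ^ 2, cxy, czt} : Set F4),
    g3 ρ ∈ Tg.Z (⊤ : Ideal (ZMod 3)) := by
  rintro ρ (rfl | rfl | rfl | rfl)
  · rw [w3x]; exact Subgroup.one_mem _
  · rw [w3z]; exact Subgroup.one_mem _
  · rw [w3c]; exact Subgroup.one_mem _
  · rw [w3d]; exact ⟨rfl, rfl, rfl, Submodule.mem_top⟩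

theorem e1 : EqF c3 (fun g => dl (g1 g).q) ∧
    ∀ g ∈ RR, g1 g ∈ Tg.Z (Ideal.span ({3} : Set (ZMod 9))) := by
  refine eqF_of_hom g1 _ hf1 dl c3 ?_ ?_
  · intro a ha b hb
    obtain ⟨a', rfl⟩ := Ideal.mem_span_singleton.1 ha
    obtain ⟨b', rfl⟩ := Ideal.mem_span_singleton.1 hb
    exact dl_add a' b'
  · intro g a ha
    obtain ⟨a', rfl⟩ := Ideal.mem_span_singleton.1 ha
    rcases lg1 g with ⟨h1, h2⟩ | ⟨h1, h2⟩
    · rw [h2, c3, h1]; simp
    · rw [h2, c3, h1]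
      have h3 := dl_neg a'
      simpa using h3

theorem e2 : EqF c3 (fun g => (g2 g).q) ∧ ∀ g ∈ RR, g2 g ∈ Tg.Z (⊤ : Ideal (ZMod 3)) := by
  refine eqF_of_hom g2 _ hf2 id c3 (fun _ _ _ _ => rfl) ?_
  intro g a _
  rcases lg2 g with ⟨h1, h2⟩ | ⟨h1, h2⟩
  · rw [h2, c3, h1]; simp
  · rw [h2, c3, h1]; simp

theorem e3 : EqF c3 (fun g => (g3 g).q) ∧ ∀ g ∈ RR, g3 g ∈ Tg.Z (⊤ : Ideal (ZMod 3)) := by
  refine eqF_of_hom g3 _ hf3 id c3 (fun _ _ _ _ => rfl) ?_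
  intro g a _
  rcases lg3 g with ⟨h1, h2⟩ | ⟨h1, h2⟩
  · rw [h2, c3, h1]; simp
  · rw [h2, c3, h1]; simp

theorem eqF3 (i : Fin 3) : EqF c3 (ph3 i) := by
  fin_cases i
  · exact e1.1
  · exact e2.1
  · exact e3.1

theorem det3 (r : Fin 3 → F4) (hr : Subgroup.normalClosure (Set.range r) = RR) :
    (Matrix.of fun j i => ph3 i (r j)).det ≠ 0 := by
  have : Fact (Nat.Prime 3) := ⟨Nat.prime_three⟩
  refine det_ne_zero ph3 eqF3 ![of 0 ^ 3, cxy, czt] ?_ ?_ ?_ r hr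
  · intro i
    fin_cases i
    · exact x3_mem
    · exact cxy_mem
    · exact czt_mem
  · intro i j hij
    fin_cases i <;> fin_cases j <;> first | exact absurd rfl hij | skip
    · show dl (g1 cxy).q = 0
      rw [w1c]; rfl
    · show dl (g1 czt).q = 0
      rw [w1d]; rfl
    · show (g2 (of 0 ^ 3)).q = 0
      rw [w2x]; rfl
    · show (g2 czt).q = 0
      rw [w2d]; rfl
    · show (g3 (of 0 ^ 3)).q = 0
      rw [w3x]; rfl
    · show (g3 cxy).q = 0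
      rw [w3c]; rfl
  · intro i
    fin_cases i
    · show dl (g1 (of 0 ^ 3)).q ≠ 0
      rw [w1x]
      exact dl3
    · show (g2 cxy).q ≠ 0
      rw [w2c]
      exact one3
    · show (g3 czt).q ≠ 0
      rw [w3d]
      exact one3

/-- on words in `z, t` only the third functional does not vanish -/
theorem zt3 (w : F4) (hw : w ∈ Subgroup.closure ({of 2, of 3} : Set F4)) :
    ph3 0 w = 0 ∧ ph3 1 w = 0 := by
  refine ⟨?_, ?_⟩
  · have h1 := (closure_le_comap g1 2 3 (Dg (ZMod 9)) (by rw [g1_2]; exact ⟨rfl, rfl, rfl⟩)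
      (by rw [g1_3]; exact Subgroup.one_mem _) w hw).2.1
    show dl (g1 w).q = 0
    rw [h1]; rfl
  · exact (closure_le_comap g2 2 3 (Dg (ZMod 3)) (by rw [g2_2]; exact ⟨rfl, rfl, rfl⟩)
      (by rw [g2_3]; exact Subgroup.one_mem _) w hw).2.1

theorem range3' (a b c : F4) : Set.range ![a, b, c] = {a, b, c} := by
  ext g
  simp only [Set.mem_range, Set.mem_insert_iff, Set.mem_singleton_iff]
  constructor
  · rintro ⟨i, rfl⟩
    fin_cases i <;> simp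
  · rintro (rfl | rfl | rfl)
    · exact ⟨0, rfl⟩
    · exact ⟨1, rfl⟩
    · exact ⟨2, rfl⟩

/-- two words in `z, t` -/
theorem two_zt (a b c : F4) (ha : a ∈ Subgroup.closure ({of 2, of 3} : Set F4))
    (hb : b ∈ Subgroup.closure ({of 2, of 3} : Set F4)) :
    Subgroup.normalClosure ({a, b, c} : Set F4) ≠ RR := by
  intro h
  rw [← range3'] at h
  apply det3 _ h
  rw [Matrix.det_fin_three]
  have e1 := zt3 a ha
  have e2 := zt3 b hb
  simp only [Matrix.of_apply, Matrix.cons_val_zero, Matrix.cons_val_one, Matrix.cons_val]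
  rw [e1.1, e1.2, e2.1, e2.2]
  ring

/-- a power of a word in `z, t` -/
theorem pow_zt (w : F4) (hw : w ∈ Subgroup.closure ({of 2, of 3} : Set F4)) (m : ℕ) (hm : 1 ≤ m)
    (b c : F4) (h : Subgroup.normalClosure ({w ^ m, b, c} : Set F4) = RR) : w ∈ RR := by
  have : Fact (Nat.Prime 3) := ⟨Nat.prime_three⟩
  have hwm : w ^ m ∈ RR := by
    rw [← h]
    exact Subgroup.subset_normalClosure (by simp)
  have hS : g3 w ∈ Sg (ZMod 3) := by
    refine closure_le_comap g3 2 3 (Sg (ZMod 3)) ?_ ?_ w hw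
    · rw [g3_2]; exact ⟨rfl, rfl⟩
    · rw [g3_3]; exact ⟨rfl, rfl⟩
  have hl : (g3 w).l = 1 := by
    by_contra hne
    have h3 : (g3 (w ^ m)).l = 1 := (e3.2 _ hwm).1
    rw [map_pow] at h3
    have h4 := Sg_pow_zero _ hS hne m h3
    rw [← range3'] at h
    apply det3 _ h
    rw [Matrix.det_fin_three]
    have e1 := zt3 (w ^ m) (Subgroup.pow_mem _ hw m)
    have e2 : ph3 2 (w ^ m) = 0 := by
      show (g3 (w ^ m)).q = 0
      rw [map_pow]; exact h4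
    simp only [Matrix.of_apply, Matrix.cons_val_zero, Matrix.cons_val_one, Matrix.cons_val]
    rw [e1.1, e1.2, e2]
    ring
  obtain ⟨a, b', hab⟩ := comm_form 2 3 czt_mem w hw
  have hker : ∀ (i : Fin 4) (hi : ∀ g ∈ RR, ex i g = 1), ∀ g h : F4,
      (QuotientGroup.mk g : F4 ⧸ RR) = QuotientGroup.mk h → ex i g = ex i h := by
    intro i hi g h hgh
    have h5 := hi _ (QuotientGroup.eq.1 hgh)
    rw [_root_.map_mul, _root_.map_inv] at h5
    exact (inv_mul_eq_one.1 h5)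
  have hab' : (QuotientGroup.mk w : F4 ⧸ RR) = QuotientGroup.mk (of 2 ^ a * of 3 ^ b') := hab
  have hb0 : b' = 0 := by
    have h5 := hker 3 ex_t _ _ hab'
    have h6 := ex_t _ hwm
    rw [map_pow, h5, _root_.map_mul, map_zpow, map_zpow, ex_of, ex_of] at h6
    simp at h6
    rcases h6 with h7 | h7
    · exact h7
    · omega
  subst hb0
  have ha2 : (2 : ℤ) ∣ a := by
    have h5 : (g3 w).l = (g3 (of 2 ^ a * of 3 ^ (0 : ℤ))).l := by
      have h6 := (e3.2 _ (QuotientGroup.eq.1 hab')).1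
      rw [_root_.map_mul, _root_.map_inv, Tg.mul_l, Tg.inv_l] at h6
      exact inv_mul_eq_one.1 h6
    rw [hl, zpow_zero, mul_one, map_zpow, g3_2] at h5
    have h6 : (Tg.lh (K := ZMod 3)) ((⟨-1, 0, 0, 0⟩ : Tg (ZMod 3)) ^ a) = (-1) ^ a := by
      rw [map_zpow]; rfl
    have h7 : ((-1 : (ZMod 3)ˣ)) ^ a = 1 := by rw [← h6]; exact h5.symm
    rcases Int.even_or_odd a with h8 | h8
    · exact h8.two_dvd
    · rw [Odd.neg_one_zpow h8] at h7
      exact absurd h7 m13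
  obtain ⟨k, rfl⟩ := ha2
  rw [← QuotientGroup.eq_one_iff, hab, zpow_zero, mul_one, zpow_mul]
  have h5 : (QuotientGroup.mk (of 2) : F4 ⧸ RR) ^ (2 : ℤ) = 1 := by
    have h6 : (QuotientGroup.mk (of 2 ^ 2) : F4 ⧸ RR) = 1 := (QuotientGroup.eq_one_iff _).2 z2_mem
    exact_mod_cast h6
  rw [h5, one_zpow]

end Pool.Agent.T3R
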