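import Pool.Agent.Lib.T3R.Det

/-!
# The consequences of the determinants in characteristic 2 and 3

(helper14, problem MP_6b13af_al)
-/

set_option autoImplicit false

namespace Pool.Agent.T3R

open FreeGroup

theorem range3 (a b c : F4) : Set.range ![a, b, c] = {a, b, c} := by
  ext g
  simp only [Set.mem_range, Set.mem_insert_iff, Set.mem_singleton_iff]
  constructor
  · rintro ⟨i, rfl⟩
    fin_cases i <;> simp
  · rintro (rfl | rfl | rfl)
    · exact ⟨0, rfl⟩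
    · exact ⟨1, rfl⟩
    · exact ⟨2, rfl⟩

/-! ### characteristic 2 -/

section Two

variable {K : Type} [Field K] (ω : Kˣ)

def f1 : F4 →* Tg K := FreeGroup.lift ![⟨ω, 0, 0, 0⟩, ⟨1, 0, 1, 0⟩, 1, 1]
def f2 : F4 →* Tg K := FreeGroup.lift ![⟨ω, 0, 0, 0⟩, 1, ⟨1, 1, 0, 1⟩, 1]
def f3 : F4 →* Tg K := FreeGroup.lift ![⟨ω, 0, 0, 0⟩, 1, ⟨1, 1, 0, 0⟩, ⟨1, 0, 0, 1⟩]

theorem f1_0 : f1 ω (of 0) = ⟨ω, 0, 0, 0⟩ := by rw [f1, FreeGroup.lift_apply_of]; rfl
theorem f1_1 : f1 ω (of 1) = ⟨1, 0, 1, 0⟩ := by rw [f1, FreeGroup.lift_apply_of]; rfl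
theorem f1_2 : f1 ω (of 2) = 1 := by rw [f1, FreeGroup.lift_apply_of]; rfl
theorem f1_3 : f1 ω (of 3) = 1 := by rw [f1, FreeGroup.lift_apply_of]; rfl
theorem f2_0 : f2 ω (of 0) = ⟨ω, 0, 0, 0⟩ := by rw [f2, FreeGroup.lift_apply_of]; rfl
theorem f2_1 : f2 ω (of 1) = 1 := by rw [f2, FreeGroup.lift_apply_of]; rfl
theorem f2_2 : f2 ω (of 2) = ⟨1, 1, 0, 1⟩ := by rw [f2, FreeGroup.lift_apply_of]; rfl
theorem f2_3 : f2 ω (of 3) = 1 := by rw [f2, FreeGroup.lift_apply_of]; rfl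
theorem f3_0 : f3 ω (of 0) = ⟨ω, 0, 0, 0⟩ := by rw [f3, FreeGroup.lift_apply_of]; rfl
theorem f3_1 : f3 ω (of 1) = 1 := by rw [f3, FreeGroup.lift_apply_of]; rfl
theorem f3_2 : f3 ω (of 2) = ⟨1, 1, 0, 0⟩ := by rw [f3, FreeGroup.lift_apply_of]; rfl
theorem f3_3 : f3 ω (of 3) = ⟨1, 0, 0, 1⟩ := by rw [f3, FreeGroup.lift_apply_of]; rfl

theorem lh_eq2 (g : F4) : (f2 ω g).l = (f1 ω g).l := by
  have h : (Tg.lh (K := K)).comp (f2 ω) = (Tg.lh (K := K)).comp (f1 ω) := by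
    refine FreeGroup.ext_hom _ _ fun i => ?_
    fin_cases i
    · exact congrArg Tg.l ((f2_0 ω).trans (f1_0 ω).symm)
    · show (f2 ω (of 1)).l = (f1 ω (of 1)).l
      rw [f2_1, f1_1]; rfl
    · show (f2 ω (of 2)).l = (f1 ω (of 2)).l
      rw [f2_2, f1_2]; rfl
    · show (f2 ω (of 3)).l = (f1 ω (of 3)).l
      rw [f2_3, f1_3]
  exact DFunLike.congr_fun h g

theorem lh_eq3 (g : F4) : (f3 ω g).l = (f1 ω g).l := by
  have h : (Tg.lh (K := K)).comp (f3 ω) = (Tg.lh (K := K)).comp (f1 ω) := by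
    refine FreeGroup.ext_hom _ _ fun i => ?_
    fin_cases i
    · exact congrArg Tg.l ((f3_0 ω).trans (f1_0 ω).symm)
    · show (f3 ω (of 1)).l = (f1 ω (of 1)).l
      rw [f3_1, f1_1]; rfl
    · show (f3 ω (of 2)).l = (f1 ω (of 2)).l
      rw [f3_2, f1_2]; rfl
    · show (f3 ω (of 3)).l = (f1 ω (of 3)).l
      rw [f3_3, f1_3]; rfl
  exact DFunLike.congr_fun h g

variable (h2 : (2 : K) = 0) (hω : (ω : K) ^ 2 + ω + 1 = 0)

include hω in
theorem om3 : ω ^ 3 = 1 := by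
  ext
  push_cast
  linear_combination ((ω : K) - 1) * hω

include h2 hω in
theorem om1 : (ω : K) - 1 ≠ 0 := by
  intro h
  have h1 : (ω : K) = 1 := sub_eq_zero.1 h
  rw [h1] at hω
  have h3 : (1 : K) = 0 := by linear_combination hω - h2
  exact one_ne_zero h3

include hω in
theorem v1x : f1 ω (of 0 ^ 3) = 1 := by
  have h := om3 ω hω
  rw [map_pow, f1_0]
  ext <;> simp [pow_succ] at h ⊢
  · exact congrArg Units.val h

include hω in
theorem v2x : f2 ω (of 0 ^ 3) = 1 := by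
  have h := om3 ω hω
  rw [map_pow, f2_0]
  ext <;> simp [pow_succ] at h ⊢
  · exact congrArg Units.val h

include hω in
theorem v3x : f3 ω (of 0 ^ 3) = 1 := by
  have h := om3 ω hω
  rw [map_pow, f3_0]
  ext <;> simp [pow_succ] at h ⊢
  · exact congrArg Units.val h

theorem v1z : f1 ω (of 2 ^ 2) = 1 := by rw [map_pow, f1_2, one_pow]

include h2 in
theorem v2z : f2 ω (of 2 ^ 2) = ⟨1, 0, 1, 0⟩ := by
  rw [map_pow, f2_2, pow_two]
  ext
  · simp
  · simp only [Tg.mul_p, Units.val_one, one_mul]; linear_combination h2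
  · simp
  · simp only [Tg.mul_u]; linear_combination h2

include h2 in
theorem v3z : f3 ω (of 2 ^ 2) = 1 := by
  rw [map_pow, f3_2, pow_two]
  ext
  · simp
  · simp only [Tg.mul_p, Units.val_one, one_mul, Tg.one_p]; linear_combination h2
  · simp
  · simp

theorem v1c : f1 ω cxy = ⟨1, 0, (ω : K) - 1, 0⟩ := by
  rw [cxy, _root_.map_mul, _root_.map_mul, _root_.map_mul, _root_.map_inv, _root_.map_inv, f1_0, f1_1]
  ext
  · simp
  · simp
  · simp only [Tg.mul_q, Tg.mul_l, Tg.mul_p, Tg.inv_q, Tg.inv_l, Tg.inv_p, Tg.inv_u, Units.val_mul,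
      Units.val_one, inv_one]
    have h : (ω : K) * ((ω⁻¹ : Kˣ) : K) = 1 := Units.mul_inv ω
    linear_combination (-1 : K) * h
  · simp

theorem v2c : f2 ω cxy = 1 := by
  rw [cxy, _root_.map_mul, _root_.map_mul, _root_.map_mul, _root_.map_inv, _root_.map_inv, f2_1]
  group

theorem v3c : f3 ω cxy = 1 := by
  rw [cxy, _root_.map_mul, _root_.map_mul, _root_.map_mul, _root_.map_inv, _root_.map_inv, f3_1]
  group

theorem v1d : f1 ω czt = 1 := by
  rw [czt, _root_.map_mul, _root_.map_mul, _root_.map_mul, _root_.map_inv, _root_.map_inv, f1_2, f1_3]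
  group

theorem v2d : f2 ω czt = 1 := by
  rw [czt, _root_.map_mul, _root_.map_mul, _root_.map_mul, _root_.map_inv, _root_.map_inv, f2_3]
  group

theorem v3d : f3 ω czt = ⟨1, 0, 1, 0⟩ := by
  rw [czt, _root_.map_mul, _root_.map_mul, _root_.map_mul, _root_.map_inv, _root_.map_inv, f3_2, f3_3]
  ext <;> simp

theorem mem_top_q (q : K) : (⟨1, 0, q, 0⟩ : Tg K) ∈ Tg.Z (⊤ : Ideal K) :=
  ⟨rfl, rfl, rfl, Submodule.mem_top⟩

/-- the three functionals in characteristic 2 -/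
def ph2 (i : Fin 3) (g : F4) : K := (![f1 ω, f2 ω, f3 ω] i g).q

include h2 hω in
theorem eqF2 (i : Fin 3) : EqF (fun g => ((f1 ω g).l : K)) (ph2 ω i) := by
  fin_cases i
  · refine (eqF_of_hom (f1 ω) ⊤ ?_ id (fun g => ((f1 ω g).l : K)) (fun _ _ _ _ => rfl)
      (fun g a _ => rfl)).1
    rintro ρ (rfl | rfl | rfl | rfl)
    · rw [v1x ω hω]; exact Subgroup.one_mem _
    · rw [v1z]; exact Subgroup.one_mem _
    · rw [v1c]; exact mem_top_q _
    · rw [v1d]; exact Subgroup.one_mem _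
  · refine (eqF_of_hom (f2 ω) ⊤ ?_ id (fun g => ((f1 ω g).l : K)) (fun _ _ _ _ => rfl)
      (fun g a _ => by rw [lh_eq2]; rfl)).1
    rintro ρ (rfl | rfl | rfl | rfl)
    · rw [v2x ω hω]; exact Subgroup.one_mem _
    · rw [v2z ω h2]; exact mem_top_q _
    · rw [v2c]; exact Subgroup.one_mem _
    · rw [v2d]; exact Subgroup.one_mem _
  · refine (eqF_of_hom (f3 ω) ⊤ ?_ id (fun g => ((f1 ω g).l : K)) (fun _ _ _ _ => rfl)
      (fun g a _ => by rw [lh_eq3]; rfl)).1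
    rintro ρ (rfl | rfl | rfl | rfl)
    · rw [v3x ω hω]; exact Subgroup.one_mem _
    · rw [v3z ω h2]; exact Subgroup.one_mem _
    · rw [v3c]; exact Subgroup.one_mem _
    · rw [v3d]; exact mem_top_q _

include h2 hω in
theorem det2 (r : Fin 3 → F4) (hr : Subgroup.normalClosure (Set.range r) = RR) :
    (Matrix.of fun j i => ph2 ω i (r j)).det ≠ 0 := by
  refine det_ne_zero (ph2 ω) (eqF2 ω h2 hω) ![cxy, of 2 ^ 2, czt] ?_ ?_ ?_ r hr
  · intro i
    fin_cases i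
    · exact cxy_mem
    · exact z2_mem
    · exact czt_mem
  · intro i j hij
    fin_cases i <;> fin_cases j <;> first | exact absurd rfl hij | skip
    · show (f1 ω (of 2 ^ 2)).q = 0
      rw [v1z]; rfl
    · show (f1 ω czt).q = 0
      rw [v1d]; rfl
    · show (f2 ω cxy).q = 0
      rw [v2c]; rfl
    · show (f2 ω czt).q = 0
      rw [v2d]; rfl
    · show (f3 ω cxy).q = 0
      rw [v3c]; rfl
    · show (f3 ω (of 2 ^ 2)).q = 0
      rw [v3z ω h2]; rfl
  · intro i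
    fin_cases i
    · show (f1 ω cxy).q ≠ 0
      rw [v1c]
      exact om1 ω h2 hω
    · show (f2 ω (of 2 ^ 2)).q ≠ 0
      rw [v2z ω h2]
      exact one_ne_zero
    · show (f3 ω czt).q ≠ 0
      rw [v3d]
      exact one_ne_zero

/-- on words in `x, y` only the first functional does not vanish -/
theorem xy2 (w : F4) (hw : w ∈ Subgroup.closure ({of 0, of 1} : Set F4)) :
    ph2 ω 1 w = 0 ∧ ph2 ω 2 w = 0 := by
  refine ⟨?_, ?_⟩
  · refine (closure_le_comap (f2 ω) 0 1 (Dg K) ?_ ?_ w hw).2.1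
    · rw [f2_0]; exact ⟨rfl, rfl, rfl⟩
    · rw [f2_1]; exact Subgroup.one_mem _
  · refine (closure_le_comap (f3 ω) 0 1 (Dg K) ?_ ?_ w hw).2.1
    · rw [f3_0]; exact ⟨rfl, rfl, rfl⟩
    · rw [f3_1]; exact Subgroup.one_mem _

end Two

/-- a field with a primitive third root of unity in characteristic 2 -/
theorem exists_om : ∃ (K : Type) (_ : Field K) (ω : Kˣ), (2 : K) = 0 ∧ (ω : K) ^ 2 + ω + 1 = 0 := by
  have : Fact (Nat.Prime 2) := ⟨Nat.prime_two⟩
  let K := AlgebraicClosure (ZMod 2)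
  have h2 : (2 : K) = 0 := by
    have := CharP.cast_eq_zero K 2
    exact_mod_cast this
  obtain ⟨z, hz⟩ := IsAlgClosed.exists_root
    (Polynomial.X ^ 2 + Polynomial.X + 1 : Polynomial K) (by
      have : (Polynomial.X ^ 2 + Polynomial.X + 1 : Polynomial K).degree = 2 := by compute_degree!
      rw [this]; decide)
  have hz' : z ^ 2 + z + 1 = 0 := by
    simpa [Polynomial.IsRoot] using hz
  have hz0 : z ≠ 0 := by
    rintro rfl
    simp at hz'
  exact ⟨K, inferInstance, Units.mk0 z hz0, h2, by simpa using hz'⟩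

/-- two words in `x, y` -/
theorem two_xy (a b c : F4) (ha : a ∈ Subgroup.closure ({of 0, of 1} : Set F4))
    (hb : b ∈ Subgroup.closure ({of 0, of 1} : Set F4)) :
    Subgroup.normalClosure ({a, b, c} : Set F4) ≠ RR := by
  intro h
  obtain ⟨K, _, ω, h2, hω⟩ := exists_om
  rw [← range3] at h
  apply det2 ω h2 hω _ h
  rw [Matrix.det_fin_three]
  have e1 := xy2 ω a ha
  have e2 := xy2 ω b hb
  simp only [Matrix.of_apply, Matrix.cons_val_zero, Matrix.cons_val_one, Matrix.cons_val]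
  rw [e1.1, e1.2, e2.1, e2.2]
  ring

/-- a power of a word in `x, y` -/
theorem pow_xy (w : F4) (hw : w ∈ Subgroup.closure ({of 0, of 1} : Set F4)) (m : ℕ) (hm : 1 ≤ m)
    (b c : F4) (h : Subgroup.normalClosure ({w ^ m, b, c} : Set F4) = RR) : w ∈ RR := by
  obtain ⟨K, _, ω, h2, hω⟩ := exists_om
  have hwm : w ^ m ∈ RR := by
    rw [← h]
    exact Subgroup.subset_normalClosure (by simp)
  have hS : f1 ω w ∈ Sg K := by
    refine closure_le_comap (f1 ω) 0 1 (Sg K) ?_ ?_ w hw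
    · rw [f1_0]; exact ⟨rfl, rfl⟩
    · rw [f1_1]; exact ⟨rfl, rfl⟩
  have hl : (f1 ω w).l = 1 := by
    by_contra hne
    have h3 : (f1 ω (w ^ m)).l = 1 :=
      ((eqF_of_hom (f1 ω) ⊤ (by
        rintro ρ (rfl | rfl | rfl | rfl)
        · rw [v1x ω hω]; exact Subgroup.one_mem _
        · rw [v1z]; exact Subgroup.one_mem _
        · rw [v1c]; exact mem_top_q _
        · rw [v1d]; exact Subgroup.one_mem _) id (fun g => ((f1 ω g).l : K)) (fun _ _ _ _ => rfl)
      (fun g a _ => rfl)).2 _ hwm).1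
    rw [map_pow] at h3
    have h4 := Sg_pow_zero _ hS hne m h3
    rw [← range3] at h
    apply det2 ω h2 hω _ h
    rw [Matrix.det_fin_three]
    have e1 := xy2 ω (w ^ m) (Subgroup.pow_mem _ hw m)
    have e2 : ph2 ω 0 (w ^ m) = 0 := by
      show (f1 ω (w ^ m)).q = 0
      rw [map_pow]; exact h4
    simp only [Matrix.of_apply, Matrix.cons_val_zero, Matrix.cons_val_one, Matrix.cons_val]
    rw [e1.1, e1.2, e2]
    ring
  obtain ⟨a, b', hab⟩ := comm_form 0 1 cxy_mem w hw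
  -- the exponent of `y` is zero
  have hker : ∀ (i : Fin 4) (hi : ∀ g ∈ RR, ex i g = 1), ∀ g h : F4,
      (QuotientGroup.mk g : F4 ⧸ RR) = QuotientGroup.mk h → ex i g = ex i h := by
    intro i hi g h hgh
    have h5 := hi _ (QuotientGroup.eq.1 hgh)
    rw [_root_.map_mul, _root_.map_inv] at h5
    exact (inv_mul_eq_one.1 h5)
  have hab' : (QuotientGroup.mk w : F4 ⧸ RR) = QuotientGroup.mk (of 0 ^ a * of 1 ^ b') := hab
  have hb0 : b' = 0 := by
    have h5 := hker 1 ex_y _ _ hab'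
    have h6 := ex_y _ hwm
    rw [map_pow, h5, _root_.map_mul, map_zpow, map_zpow, ex_of, ex_of] at h6
    simp at h6
    rcases h6 with h7 | h7
    · exact h7
    · omega
  subst hb0
  -- the exponent of `x` is divisible by 3
  have ha3 : (3 : ℤ) ∣ a := by
    have h5 : (f1 ω w).l = (f1 ω (of 0 ^ a * of 1 ^ (0 : ℤ))).l := by
      have h6 := ((eqF_of_hom (f1 ω) ⊤ (by
        rintro ρ (rfl | rfl | rfl | rfl)
        · rw [v1x ω hω]; exact Subgroup.one_mem _
        · rw [v1z]; exact Subgroup.one_mem _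
        · rw [v1c]; exact mem_top_q _
        · rw [v1d]; exact Subgroup.one_mem _) id (fun g => ((f1 ω g).l : K)) (fun _ _ _ _ => rfl)
        (fun g a _ => rfl)).2 _ (QuotientGroup.eq.1 hab')).1
      rw [_root_.map_mul, _root_.map_inv, Tg.mul_l, Tg.inv_l] at h6
      exact inv_mul_eq_one.1 h6
    rw [hl, zpow_zero, mul_one, map_zpow, f1_0] at h5
    have h6 : (Tg.lh (K := K)) ((⟨ω, 0, 0, 0⟩ : Tg K) ^ a) = ω ^ a := by
      rw [map_zpow]; rfl
    have h7 : ω ^ a = 1 := by rw [← h6]; exact h5.symm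
    have h8 : orderOf ω = 3 := by
      have : Fact (Nat.Prime 3) := ⟨Nat.prime_three⟩
      refine orderOf_eq_prime (om3 ω hω) ?_
      rintro rfl
      exact om1 1 h2 hω (by simp)
    have h9 := orderOf_dvd_iff_zpow_eq_one.2 h7
    rw [h8] at h9
    exact_mod_cast h9
  obtain ⟨k, rfl⟩ := ha3
  rw [← QuotientGroup.eq_one_iff, hab, zpow_zero, mul_one, zpow_mul]
  have h5 : (QuotientGroup.mk (of 0) : F4 ⧸ RR) ^ (3 : ℤ) = 1 := by
    have h6 : (QuotientGroup.mk (of 0 ^ 3) : F4 ⧸ RR) = 1 := (QuotientGroup.eq_one_iff _).2 x3_mem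
    exact_mod_cast h6
  rw [h5, one_zpow]

end Pool.Agent.T3R
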