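import Pool.Agent.Lib.T3R.Core

/-!
# One relator in two letters and one in three letters

(helper14, problem MP_6b13af_al)
-/

set_option autoImplicit false

open scoped Classical

namespace Pool.Agent.T3R

open FreeGroup
open Pool.Agent.LTree (NPow GTree)
open Pool.Agent.LOTI (LI LI_free)

theorem Gd.one {N : Subgroup F4} (hN : Gd N) (b c : F4) :
    Subgroup.normalClosure ({1, b, c} : Set F4) ≠ N := by
  intro h
  haveI := hN.nor
  obtain ⟨g, hg, n, hn, hgn⟩ := hN.tor
  apply hg
  refine hN.pow g n hn b c (le_antisymm ?_ ?_)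
  · refine Subgroup.normalClosure_le_normal ?_
    intro x hx
    rcases hx with hx | hx | hx
    · rw [hx]; exact hgn
    · rw [hx, ← h]
      exact Subgroup.subset_normalClosure (by simp)
    · have hx' : x = c := hx
      rw [hx', ← h]
      exact Subgroup.subset_normalClosure (by simp)
  · rw [← h]
    refine Subgroup.normalClosure_le_normal ?_
    intro x hx
    rcases hx with hx | hx | hx
    · rw [hx]
      exact Subgroup.one_mem _
    · rw [hx]
      exact Subgroup.subset_normalClosure (by simp)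
    · have hx' : x = c := hx
      rw [hx']
      exact Subgroup.subset_normalClosure (by simp)

/-- the splitting of a quotient of a free group by words without some of the letters -/
theorem split_quot {P J X : Type} (e : P → X) (z : J → X)
    (h : Function.Bijective (Sum.elim e z)) (S : Set (FreeGroup P)) (S' : Set (FreeGroup X))
    (hS : FreeGroup.map e '' S = S') :
    ∃ j : FreeGroup P ⧸ Subgroup.normalClosure S →* FreeGroup X ⧸ Subgroup.normalClosure S',
      (∀ p, j (QuotientGroup.mk p) = QuotientGroup.mk (FreeGroup.map e p)) ∧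
      Pool.Agent.Lib.MagH.FreeSplit j
        (fun i : J => (QuotientGroup.mk (of (z i)) :
          FreeGroup X ⧸ Subgroup.normalClosure S')) := by
  obtain ⟨j, hj⟩ := exists_lift S
    ((QuotientGroup.mk' (Subgroup.normalClosure S')).comp (FreeGroup.map e)) (by
      intro s hs
      refine (QuotientGroup.eq_one_iff _).2 (Subgroup.subset_normalClosure ?_)
      rw [← hS]
      exact ⟨s, hs, rfl⟩)
  refine ⟨j, hj, ?_, ?_⟩
  · intro H h1 h2
    have h3 : (⊤ : Subgroup (FreeGroup X)) ≤ H.comap (QuotientGroup.mk' _) := by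
      rw [← FreeGroup.closure_range_of, Subgroup.closure_le]
      rintro _ ⟨i, rfl⟩
      show (QuotientGroup.mk (of i) : FreeGroup X ⧸ Subgroup.normalClosure S') ∈ H
      obtain ⟨k, rfl⟩ := h.2 i
      rcases k with k | k
      · have h4 : (QuotientGroup.mk (FreeGroup.map e (of k)) :
            FreeGroup X ⧸ Subgroup.normalClosure S') ∈ H := by
          have h5 := h1 (QuotientGroup.mk (of k))
          rw [hj] at h5
          exact h5
        rw [FreeGroup.map.of] at h4
        exact h4
      · exact h2 k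
    rw [eq_top_iff]
    intro g _
    obtain ⟨g', rfl⟩ := QuotientGroup.mk_surjective g
    exact h3 (Subgroup.mem_top g')
  · intro Y _ f u
    obtain ⟨E, hE⟩ : ∃ E : (P ⊕ J) ≃ X, ∀ k, E k = Sum.elim e z k :=
      ⟨Equiv.ofBijective _ h, fun _ => rfl⟩
    obtain ⟨L, hL⟩ : ∃ L : FreeGroup X →* Y, ∀ x, L (of x) =
        Sum.elim (fun p => f (QuotientGroup.mk (of p))) u (E.symm x) :=
      ⟨FreeGroup.lift _, fun x => FreeGroup.lift_apply_of⟩
    have hF : ∀ p, L (FreeGroup.map e p) = f (QuotientGroup.mk p) := by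
      intro p
      have h5 : L.comp (FreeGroup.map e) = f.comp (QuotientGroup.mk' _) := by
        refine FreeGroup.ext_hom _ _ fun i => ?_
        show L (FreeGroup.map e (of i)) = f (QuotientGroup.mk (of i))
        rw [FreeGroup.map.of, hL]
        have h6 : E.symm (e i) = Sum.inl i := by
          rw [Equiv.symm_apply_eq, hE]; rfl
        rw [h6]
        rfl
      exact DFunLike.congr_fun h5 p
    obtain ⟨F, hF2⟩ := exists_lift S' L (by
        rw [← hS]
        rintro _ ⟨s, hs, rfl⟩
        rw [hF]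
        have h1 : (QuotientGroup.mk s : FreeGroup P ⧸ Subgroup.normalClosure S) = 1 :=
          (QuotientGroup.eq_one_iff _).2 (Subgroup.subset_normalClosure hs)
        rw [h1, _root_.map_one])
    refine ⟨F, ?_, ?_⟩
    · intro p
      obtain ⟨p', rfl⟩ := QuotientGroup.mk_surjective p
      rw [hj]
      show F (QuotientGroup.mk (FreeGroup.map e p')) = _
      rw [hF2, hF]
    · intro i
      rw [hF2, hL]
      have h6 : E.symm (z i) = Sum.inr i := by
        rw [Equiv.symm_apply_eq, hE]; rfl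
      rw [h6]
      rfl

/-- the words in `x, y` among the words in `x, y, z` -/
def i3 : FreeGroup (Fin 2) →* FreeGroup (Fin 3) := FreeGroup.map ![0, 1]
/-- the words in `x, y, z` -/
def k3 : FreeGroup (Fin 3) →* F4 := FreeGroup.map ![0, 1, 2]
/-- the retraction -/
def r3 : F4 →* FreeGroup (Fin 3) := FreeGroup.lift ![of 0, of 1, of 2, 1]

theorem k3_i3 (w : FreeGroup (Fin 2)) : k3 (i3 w) = iA w := by
  have h : k3.comp i3 = iA := by
    refine FreeGroup.ext_hom _ _ fun i => ?_
    show k3 (i3 (of i)) = iA (of i)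
    rw [i3, FreeGroup.map.of, k3, FreeGroup.map.of, iA, FreeGroup.lift_apply_of]
    fin_cases i <;> rfl
  exact DFunLike.congr_fun h w

theorem r3_k3 (w : FreeGroup (Fin 3)) : r3 (k3 w) = w := by
  have h : r3.comp k3 = MonoidHom.id _ := by
    refine FreeGroup.ext_hom _ _ fun i => ?_
    show r3 (k3 (of i)) = of i
    rw [k3, FreeGroup.map.of, r3, FreeGroup.lift_apply_of]
    fin_cases i <;> rfl
  exact DFunLike.congr_fun h w

theorem k3_wd (w : FreeGroup (Fin 3)) : k3 w ∈ Wd {i | i ≠ 3} := by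
  have h : (⊤ : Subgroup (FreeGroup (Fin 3))) ≤ (Wd {i | i ≠ 3}).comap k3 := by
    rw [← FreeGroup.closure_range_of, Subgroup.closure_le]
    rintro _ ⟨i, rfl⟩
    show k3 (of i) ∈ Wd {i | i ≠ 3}
    rw [k3, FreeGroup.map.of, Wd]
    refine Subgroup.subset_closure ⟨_, ?_, rfl⟩
    fin_cases i
    · show (0 : Fin 4) ≠ 3
      decide
    · show (1 : Fin 4) ≠ 3
      decide
    · show (2 : Fin 4) ≠ 3
      decide
  exact h (Subgroup.mem_top w)

theorem exists_k3 (w : F4) (hw : w ∈ Wd {i | i ≠ 3}) : ∃ w', k3 w' = w := by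
  have h : Wd {i | i ≠ 3} ≤ k3.range := by
    rw [Wd, Subgroup.closure_le]
    rintro _ ⟨i, hi, rfl⟩
    fin_cases i
    · exact ⟨of 0, by rw [k3, FreeGroup.map.of]; rfl⟩
    · exact ⟨of 1, by rw [k3, FreeGroup.map.of]; rfl⟩
    · exact ⟨of 2, by rw [k3, FreeGroup.map.of]; rfl⟩
    · exact absurd rfl hi
  exact h hw

theorem k3_nc (S : Set (FreeGroup (Fin 3))) (g : FreeGroup (Fin 3))
    (hg : g ∈ Subgroup.normalClosure S) : k3 g ∈ Subgroup.normalClosure (k3 '' S) := by
  have h : Subgroup.normalClosure S ≤ (Subgroup.normalClosure (k3 '' S)).comap k3 := by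
    refine Subgroup.normalClosure_le_normal ?_
    intro s hs
    exact Subgroup.subset_normalClosure ⟨s, hs, rfl⟩
  exact h hg

theorem bij2 : Function.Bijective
    (Sum.elim (![0, 1] : Fin 2 → Fin 3) (fun _ : Unit => (2 : Fin 3))) := by
  constructor
  · decide
  · decide

theorem bij3 : Function.Bijective
    (Sum.elim (![0, 1, 2] : Fin 3 → Fin 4) (fun _ : Unit => (3 : Fin 4))) := by
  constructor
  · decide
  · decide

/-- the case of a word in `x, y` and a word in `x, y, z` -/
theorem nest {N : Subgroup F4} (hN : Gd N) (a' : FreeGroup (Fin 2)) (b' : FreeGroup (Fin 3))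
    (c : F4) : Subgroup.normalClosure ({iA a', k3 b', c} : Set F4) ≠ N := by
  intro h
  haveI := hN.nor
  by_cases ha1 : a' = 1
  · subst ha1
    rw [_root_.map_one] at h
    exact hN.one _ _ h
  obtain ⟨w', m, hm, hw, hwn⟩ := Pool.Agent.Lib.MagH.exists_root a' ha1
  have hwn' : NPow (iA w') := npow_map rA _ (by rw [rA_iA]; exact hwn)
  rw [hw, map_pow] at h
  obtain ⟨hwN, h1⟩ := repl_root hN (iA w') _ _ m hm h
  have hB := LI_one' hN w' hwn' hwN
  -- the tree of the group on `x, y, z`
  obtain ⟨jE, hjE, hsE⟩ := split_quot (![0, 1] : Fin 2 → Fin 3) (fun _ : Unit => (2 : Fin 3))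
    bij2 ({w'} : Set (FreeGroup (Fin 2))) ({i3 w'} : Set (FreeGroup (Fin 3)))
    (Set.image_singleton)
  obtain ⟨TE, hTE, h4, v₀, hv₀⟩ := Pool.Agent.Lib.MagH.split_tree hsE
  have h2 : Subgroup.normalClosure (insert (k3 b') ({iA w', c} : Set F4)) = N := by
    rw [← h1]
    congr 1
    ext x
    simp only [Set.mem_insert_iff, Set.mem_singleton_iff]
    tauto
  have hV : ({iA w'} : Set F4) ⊆ {iA w', c} := by
    intro x hx
    exact Or.inl hx
  by_cases hell : TE.Ell (QuotientGroup.mk b')
  · obtain ⟨u, hu⟩ := hell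
    obtain ⟨g, p, h5⟩ := h4 u _ hu
    obtain ⟨p', rfl⟩ := QuotientGroup.mk_surjective p
    obtain ⟨g', rfl⟩ := QuotientGroup.mk_surjective g
    rw [hjE] at h5
    have h6 : b'⁻¹ * (g' * i3 p' * g'⁻¹) ∈ Subgroup.normalClosure
        ({i3 w'} : Set (FreeGroup (Fin 3))) := QuotientGroup.eq.1 h5
    have h7 := k3_nc _ _ h6
    rw [Set.image_singleton, k3_i3, _root_.map_mul, _root_.map_mul, _root_.map_mul,
      _root_.map_inv, _root_.map_inv, k3_i3] at h7
    have h8 := repl_gen N _ _ (k3 b') (iA p') (k3 g') h2 hV h7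
    exact hN.two 0 1 (by decide) _ _ _ (iA_wd p') (iA_wd w') h8
  · obtain ⟨s, q, hq, hs, hsn, hse⟩ := exists_root_tree TE _ hell
    obtain ⟨s', rfl⟩ := QuotientGroup.mk_surjective s
    have h5 : b'⁻¹ * s' ^ q ∈ Subgroup.normalClosure
        ({i3 w'} : Set (FreeGroup (Fin 3))) := QuotientGroup.eq.1 hs
    have h6 := k3_nc _ _ h5
    rw [Set.image_singleton, k3_i3, _root_.map_mul, _root_.map_inv, map_pow] at h6
    have h7 : (k3 b')⁻¹ * (1 * k3 s' ^ q * 1⁻¹) ∈ Subgroup.normalClosure
        ({iA w'} : Set F4) := by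
      rw [one_mul, inv_one, mul_one]
      exact h6
    have h8 : Subgroup.normalClosure ({k3 s' ^ q, iA w', c} : Set F4) = N :=
      repl_gen N _ _ (k3 b') (k3 s' ^ q) 1 h2 hV h7
    obtain ⟨hvN, h9⟩ := repl_root hN (k3 s') _ _ q hq h8
    have h3 : Subgroup.normalClosure ({c, iA w', k3 s'} : Set F4) = N := by
      rw [← h9]
      congr 1
      ext x
      simp only [Set.mem_insert_iff, Set.mem_singleton_iff]
      tauto
    -- the retraction of `F / <<w>>` to the group on `x, y, z`
    obtain ⟨ρ, hρ⟩ := exists_lift ({iA w'} : Set F4)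
      ((QuotientGroup.mk' (Subgroup.normalClosure ({i3 w'} : Set (FreeGroup (Fin 3))))).comp r3)
      (by
        rintro _ rfl
        rw [← k3_i3]
        show (QuotientGroup.mk (r3 (k3 (i3 w'))) : FreeGroup (Fin 3) ⧸ _) = 1
        rw [r3_k3]
        exact (QuotientGroup.eq_one_iff _).2 (Subgroup.subset_normalClosure rfl))
    have hρ' : ∀ p : FreeGroup (Fin 3), ρ (QuotientGroup.mk (k3 p)) = QuotientGroup.mk p := by
      intro p
      rw [hρ]
      show (QuotientGroup.mk (r3 (k3 p)) : FreeGroup (Fin 3) ⧸ _) = _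
      rw [r3_k3]
    have hρi : ∀ p : FreeGroup (Fin 2), ρ (QuotientGroup.mk (iA p)) = QuotientGroup.mk (i3 p) := by
      intro p
      have h := hρ' (i3 p)
      rwa [k3_i3] at h
    obtain ⟨jB, hjB, hsB⟩ := freeSplitB w'
    obtain ⟨TB, hTB, h10, _⟩ := Pool.Agent.Lib.MagH.split_tree hsB
    have hellB : ¬ TB.Ell (QuotientGroup.mk (k3 s') : QB w') := by
      rintro ⟨u, hu⟩
      obtain ⟨g, p, h11⟩ := h10 u _ hu
      obtain ⟨p', rfl⟩ := QuotientGroup.mk_surjective p
      rw [hjB] at h11
      have h12 := congrArg ρ h11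
      rw [hρ', _root_.map_mul, _root_.map_mul, _root_.map_inv, hρi] at h12
      refine hse ⟨ρ g • v₀, ?_⟩
      have h13 := hv₀ (QuotientGroup.mk p')
      rw [hjE] at h13
      rw [h12, mul_smul, mul_smul, inv_smul_smul]
      exact congrArg (fun y => ρ g • y) h13
    have hnpB : NPow (QuotientGroup.mk (k3 s') : QB w') := by
      refine npow_map ρ _ ?_
      rw [hρ']
      exact hsn
    have hLI := LI_qq _ _ (Pool.Agent.LTree.ft hB TB hTB _ hellB hnpB).1
    -- the last tree
    obtain ⟨jA, hjA, hsA⟩ := split_quot (![0, 1, 2] : Fin 3 → Fin 4)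
      (fun _ : Unit => (3 : Fin 4)) bij3 ({i3 w', s'} : Set (FreeGroup (Fin 3)))
      ({iA w', k3 s'} : Set F4) (by
        rw [Set.image_pair, ← k3_i3]; rfl)
    obtain ⟨TA, hTA, h11, _⟩ := Pool.Agent.Lib.MagH.split_tree hsA
    by_cases hellA : TA.Ell (QuotientGroup.mk c)
    · obtain ⟨u, hu⟩ := hellA
      obtain ⟨g, p, h12⟩ := h11 u _ hu
      obtain ⟨p', rfl⟩ := QuotientGroup.mk_surjective p
      obtain ⟨g', rfl⟩ := QuotientGroup.mk_surjective g
      rw [hjA] at h12
      have h13 : c⁻¹ * (g' * k3 p' * g'⁻¹) ∈ Subgroup.normalClosure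
          ({iA w', k3 s'} : Set F4) := QuotientGroup.eq.1 h12
      have h14 := repl_gen N {iA w', k3 s'} {iA w', k3 s'} c (k3 p') g' h3 le_rfl h13
      exact hN.omt 3 _ _ _ (k3_wd p') (by rw [← k3_i3]; exact k3_wd _) (k3_wd s') h14
    · exact final_aux hN _ _ hwN hvN c h3 hLI TA hTA hellA

end Pool.Agent.T3R
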