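import Pool.Agent.Lib.T3R.Lin

/-!
# The determinants in characteristic 2 and 3

(helper14, problem MP_6b13af_al)
-/

set_option autoImplicit false

namespace Pool.Agent.T3R

open FreeGroup

/-! ### subgroups of `Tg` -/

/-- diagonal matrices -/
def Dg (K : Type) [CommRing K] : Subgroup (Tg K) where
  carrier := {a | a.p = 0 ∧ a.q = 0 ∧ a.u = 0}
  one_mem' := ⟨rfl, rfl, rfl⟩
  mul_mem' := by
    rintro a b ⟨h1, h2, h3⟩ ⟨g1, g2, g3⟩
    refine ⟨?_, ?_, ?_⟩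
    · rw [Tg.mul_p, h1, g1, mul_zero, add_zero]
    · rw [Tg.mul_q, h1, h2, g2, g3, mul_zero, mul_zero, add_zero, add_zero]
    · rw [Tg.mul_u, h3, g3, add_zero]
  inv_mem' := by
    rintro a ⟨h1, h2, h3⟩
    refine ⟨?_, ?_, ?_⟩
    · rw [Tg.inv_p, h1, mul_zero, neg_zero]
    · rw [Tg.inv_q, h1, h2, zero_mul, sub_zero, mul_zero]
    · rw [Tg.inv_u, h3, neg_zero]

/-- the matrices with `p = u = 0` -/
def Sg (K : Type) [CommRing K] : Subgroup (Tg K) where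
  carrier := {a | a.p = 0 ∧ a.u = 0}
  one_mem' := ⟨rfl, rfl⟩
  mul_mem' := by
    rintro a b ⟨h1, h3⟩ ⟨g1, g3⟩
    refine ⟨?_, ?_⟩
    · rw [Tg.mul_p, h1, g1, mul_zero, add_zero]
    · rw [Tg.mul_u, h3, g3, add_zero]
  inv_mem' := by
    rintro a ⟨h1, h3⟩
    refine ⟨?_, ?_⟩
    · rw [Tg.inv_p, h1, mul_zero, neg_zero]
    · rw [Tg.inv_u, h3, neg_zero]

theorem Sg_pow {K : Type} [CommRing K] (a : Tg K) (ha : a ∈ Sg K) (m : ℕ) :
    ((a.l : K) - 1) * (a ^ m).q = (((a ^ m).l : K) - 1) * a.q := by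
  induction m with
  | zero => simp
  | succ m ih =>
    have h1 : (a ^ (m + 1)).q = (a ^ m).l * a.q + (a ^ m).q := by
      rw [pow_succ, Tg.mul_q, ha.2, mul_zero, add_zero]
    have h2 : (((a ^ (m + 1)).l : Kˣ) : K) = (a ^ m).l * a.l := by
      rw [pow_succ, Tg.mul_l, Units.val_mul]
    rw [h1, h2]
    linear_combination ih

theorem Sg_pow_zero {K : Type} [Field K] (a : Tg K) (ha : a ∈ Sg K) (h1 : a.l ≠ 1) (m : ℕ)
    (hm : (a ^ m).l = 1) : (a ^ m).q = 0 := by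
  have h2 := Sg_pow a ha m
  rw [hm, Units.val_one, sub_self, zero_mul] at h2
  refine (mul_eq_zero.1 h2).resolve_left ?_
  intro h3
  apply h1
  ext
  rw [Units.val_one]
  exact sub_eq_zero.1 h3

theorem closure_le_comap {G : Type} [Group G] (f : F4 →* G) (i j : Fin 4) (D : Subgroup G)
    (hi : f (of i) ∈ D) (hj : f (of j) ∈ D) (w : F4)
    (hw : w ∈ Subgroup.closure ({of i, of j} : Set F4)) : f w ∈ D := by
  have h1 : Subgroup.closure ({of i, of j} : Set F4) ≤ D.comap f := by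
    rw [Subgroup.closure_le]
    rintro g (rfl | rfl)
    · exact hi
    · exact hj
  exact h1 hw

/-! ### words in `x, y` and in `z, t` modulo the relators -/

theorem comm_form (i j : Fin 4)
    (hc : of i * of j * (of i)⁻¹ * (of j)⁻¹ ∈ RR) (w : F4)
    (hw : w ∈ Subgroup.closure ({of i, of j} : Set F4)) :
    ∃ a b : ℤ, (QuotientGroup.mk w : F4 ⧸ RR) =
      QuotientGroup.mk (of i) ^ a * QuotientGroup.mk (of j) ^ b := by
  obtain ⟨X, hX⟩ : ∃ X : F4 ⧸ RR, X = QuotientGroup.mk (of i) := ⟨_, rfl⟩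
  obtain ⟨Y, hY⟩ : ∃ Y : F4 ⧸ RR, Y = QuotientGroup.mk (of j) := ⟨_, rfl⟩
  rw [← hX, ← hY]
  have hXY : Commute X Y := by
    have h1 : X * Y * X⁻¹ * Y⁻¹ = 1 := by
      rw [hX, hY]
      exact (QuotientGroup.eq_one_iff _).2 hc
    show X * Y = Y * X
    have h2 : X * Y * X⁻¹ * Y⁻¹ = (X * Y) * (Y * X)⁻¹ := by group
    rw [h2] at h1
    exact mul_inv_eq_one.1 h1
  refine Subgroup.closure_induction (p := fun w _ => ∃ a b : ℤ,
    (QuotientGroup.mk w : F4 ⧸ RR) = X ^ a * Y ^ b) ?_ ?_ ?_ ?_ hw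
  · rintro g (rfl | rfl)
    · exact ⟨1, 0, by rw [zpow_one, zpow_zero, mul_one, hX]⟩
    · exact ⟨0, 1, by rw [zpow_one, zpow_zero, one_mul, hY]⟩
  · exact ⟨0, 0, by rw [zpow_zero, zpow_zero, mul_one]; rfl⟩
  · rintro g h _ _ ⟨a, b, h1⟩ ⟨a', b', h2⟩
    refine ⟨a + a', b + b', ?_⟩
    have h3 : (QuotientGroup.mk (g * h) : F4 ⧸ RR) = QuotientGroup.mk g * QuotientGroup.mk h := rfl
    rw [h3, h1, h2, zpow_add, zpow_add]
    have h4 : Commute (Y ^ b) (X ^ a') := (hXY.symm.zpow_left b).zpow_right a'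
    calc X ^ a * Y ^ b * (X ^ a' * Y ^ b') = X ^ a * (Y ^ b * X ^ a') * Y ^ b' := by group
      _ = X ^ a * (X ^ a' * Y ^ b) * Y ^ b' := by rw [h4.eq]
      _ = X ^ a * X ^ a' * (Y ^ b * Y ^ b') := by group
  · rintro g _ ⟨a, b, h1⟩
    refine ⟨-a, -b, ?_⟩
    have h3 : (QuotientGroup.mk g⁻¹ : F4 ⧸ RR) = (QuotientGroup.mk g)⁻¹ := rfl
    rw [h3, h1, mul_inv_rev, zpow_neg, zpow_neg]
    exact ((hXY.zpow_left a).zpow_right b).inv_inv.symm.eq

/-- exponent sums -/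
def ex (i : Fin 4) : F4 →* Multiplicative ℤ :=
  FreeGroup.lift fun j => if j = i then Multiplicative.ofAdd 1 else 1

theorem ex_of (i j : Fin 4) : ex i (of j) = if j = i then Multiplicative.ofAdd 1 else 1 := by
  rw [ex, FreeGroup.lift_apply_of]

theorem ex_y : ∀ g ∈ RR, ex 1 g = 1 := by
  intro g hg
  have h1 : RR ≤ (ex 1).ker := by
    refine Subgroup.normalClosure_le_normal ?_
    rintro ρ (rfl | rfl | rfl | rfl) <;>
      simp [MonoidHom.mem_ker, cxy, czt, ex_of]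
  exact h1 hg

theorem ex_t : ∀ g ∈ RR, ex 3 g = 1 := by
  intro g hg
  have h1 : RR ≤ (ex 3).ker := by
    refine Subgroup.normalClosure_le_normal ?_
    rintro ρ (rfl | rfl | rfl | rfl) <;>
      simp [MonoidHom.mem_ker, cxy, czt, ex_of]
  exact h1 hg

end Pool.Agent.T3R
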