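import Pool.Agent.Lib.T3R.CharP
import Pool.Agent.Lib.T3R.Char3

/-!
# Generating triples of `RR` : two words in two letters, three words without a letter

(helper14, problem MP_6b13af_al)
-/

set_option autoImplicit false

namespace Pool.Agent.T3R

open FreeGroup

/-- words in the letters of `S` -/
def Wd (S : Set (Fin 4)) : Subgroup F4 := Subgroup.closure (of '' S)

theorem wd_map {G : Type} [Group G] (f : F4 →* G) (S : Set (Fin 4)) (D : Subgroup G)
    (h : ∀ i ∈ S, f (of i) ∈ D) (w : F4) (hw : w ∈ Wd S) : f w ∈ D := by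
  have h1 : Wd S ≤ D.comap f := by
    rw [Wd, Subgroup.closure_le]
    rintro _ ⟨i, hi, rfl⟩
    exact h i hi
  exact h1 hw

/-- `p = q = 0` -/
def Dp (K : Type) [CommRing K] : Subgroup (Tg K) where
  carrier := {a | a.p = 0 ∧ a.q = 0}
  one_mem' := ⟨rfl, rfl⟩
  mul_mem' := by
    rintro a b ⟨h1, h2⟩ ⟨g1, g2⟩
    refine ⟨?_, ?_⟩
    · rw [Tg.mul_p, h1, g1, mul_zero, add_zero]
    · rw [Tg.mul_q, h1, h2, g2, mul_zero, zero_mul, add_zero, add_zero]
  inv_mem' := by
    rintro a ⟨h1, h2⟩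
    refine ⟨?_, ?_⟩
    · rw [Tg.inv_p, h1, mul_zero, neg_zero]
    · rw [Tg.inv_q, h1, h2, zero_mul, sub_zero, mul_zero]

/-- `q = u = 0` -/
def Du (K : Type) [CommRing K] : Subgroup (Tg K) where
  carrier := {a | a.q = 0 ∧ a.u = 0}
  one_mem' := ⟨rfl, rfl⟩
  mul_mem' := by
    rintro a b ⟨h1, h2⟩ ⟨g1, g2⟩
    refine ⟨?_, ?_⟩
    · rw [Tg.mul_q, h1, g1, g2, mul_zero, mul_zero, add_zero, add_zero]
    · rw [Tg.mul_u, h2, g2, add_zero]
  inv_mem' := by
    rintro a ⟨h1, h2⟩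
    refine ⟨?_, ?_⟩
    · rw [Tg.inv_q, h1, h2, mul_zero, sub_zero, mul_zero]
    · rw [Tg.inv_u, h2, neg_zero]

theorem pair_set (i j : Fin 4) : (of '' ({i, j} : Set (Fin 4)) : Set F4) = {of i, of j} := by
  rw [Set.image_pair]

/-- a determinant with two rows in one column -/
theorem det_two {K : Type} [Field K] (M : Matrix (Fin 3) (Fin 3) K) (c : Fin 3)
    (h : ∀ d, d ≠ c → M 0 d = 0 ∧ M 1 d = 0) : M.det = 0 := by
  rw [Matrix.det_fin_three]
  fin_cases c
  · have h1 := h 1 (by decide)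
    have h2 := h 2 (by decide)
    rw [h1.1, h1.2, h2.1, h2.2]; ring
  · have h1 := h 0 (by decide)
    have h2 := h 2 (by decide)
    rw [h1.1, h1.2, h2.1, h2.2]; ring
  · have h1 := h 0 (by decide)
    have h2 := h 1 (by decide)
    rw [h1.1, h1.2, h2.1, h2.2]; ring

/-- a determinant with a zero column -/
theorem det_col {K : Type} [Field K] (M : Matrix (Fin 3) (Fin 3) K) (c : Fin 3)
    (h : ∀ d, M d c = 0) : M.det = 0 := Matrix.det_eq_zero_of_column_eq_zero c h

theorem two_wd (i j : Fin 4) (hij : i ≠ j) (a b c : F4) (ha : a ∈ Wd {i, j})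
    (hb : b ∈ Wd {i, j}) : Subgroup.normalClosure ({a, b, c} : Set F4) ≠ RR := by
  intro h
  have two2 : ∀ (d : Fin 3), (∀ (K : Type) [Field K] (ω : Kˣ) (w : F4), w ∈ Wd {i, j} →
      ∀ e, e ≠ d → ph2 ω e w = 0) → False := by
    intro d hd
    obtain ⟨K, _, ω, h2, hω⟩ := exists_om
    rw [← range3] at h
    refine det2 ω h2 hω _ h (det_two _ d ?_)
    intro e he
    exact ⟨hd K ω a ha e he, hd K ω b hb e he⟩
  have two3 : ∀ (d : Fin 3), (∀ w : F4, w ∈ Wd {i, j} → ∀ e, e ≠ d → ph3 e w = 0) → False := by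
    intro d hd
    have : Fact (Nat.Prime 3) := ⟨Nat.prime_three⟩
    rw [← range3'] at h
    refine det3 _ h (det_two _ d ?_)
    intro e he
    exact ⟨hd a ha e he, hd b hb e he⟩
  -- the values on the generators
  have key : ∀ i j : Fin 4, i < j → (a ∈ Wd {i, j}) → (b ∈ Wd {i, j}) →
      ((∀ (d : Fin 3), (∀ (K : Type) [Field K] (ω : Kˣ) (w : F4), w ∈ Wd {i, j} →
      ∀ e, e ≠ d → ph2 ω e w = 0) → False)) →
      (∀ (d : Fin 3), (∀ w : F4, w ∈ Wd {i, j} → ∀ e, e ≠ d → ph3 e w = 0) → False) → False := by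
    clear two2 two3 ha hb hij i j
    intro i j hij ha hb two2 two3
    fin_cases i <;> fin_cases j <;> first | exact absurd hij (by decide) | skip
    · -- 0, 1
      refine two2 0 fun K _ ω w hw e he => ?_
      have hw' : w ∈ Subgroup.closure ({of 0, of 1} : Set F4) := by
        have h1 := hw
        rw [Wd] at h1
        erw [pair_set] at h1
        exact h1
      fin_cases e
      · exact absurd rfl he
      · exact (xy2 ω w hw').1
      · exact (xy2 ω w hw').2
    · -- 0, 2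
      refine two2 1 fun K _ ω w hw e he => ?_
      fin_cases e
      · refine (wd_map (f1 ω) _ (Dg K) ?_ w hw).2.1
        rintro i (rfl | rfl)
        · show f1 ω (of 0) ∈ Dg K
          rw [f1_0]; exact ⟨rfl, rfl, rfl⟩
        · show f1 ω (of 2) ∈ Dg K
          rw [f1_2]; exact Subgroup.one_mem _
      · exact absurd rfl he
      · refine (wd_map (f3 ω) _ (Du K) ?_ w hw).1
        rintro i (rfl | rfl)
        · show f3 ω (of 0) ∈ Du K
          rw [f3_0]; exact ⟨rfl, rfl⟩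
        · show f3 ω (of 2) ∈ Du K
          rw [f3_2]; exact ⟨rfl, rfl⟩
    · -- 0, 3
      refine two2 0 fun K _ ω w hw e he => ?_
      fin_cases e
      · exact absurd rfl he
      · refine (wd_map (f2 ω) _ (Dg K) ?_ w hw).2.1
        rintro i (rfl | rfl)
        · show f2 ω (of 0) ∈ Dg K
          rw [f2_0]; exact ⟨rfl, rfl, rfl⟩
        · show f2 ω (of 3) ∈ Dg K
          rw [f2_3]; exact Subgroup.one_mem _
      · refine (wd_map (f3 ω) _ (Dp K) ?_ w hw).2
        rintro i (rfl | rfl)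
        · show f3 ω (of 0) ∈ Dp K
          rw [f3_0]; exact ⟨rfl, rfl⟩
        · show f3 ω (of 3) ∈ Dp K
          rw [f3_3]; exact ⟨rfl, rfl⟩
    · -- 1, 2
      refine two3 1 fun w hw e he => ?_
      fin_cases e
      · have h1 := (wd_map g1 _ (Dg (ZMod 9)) (by
          rintro i (rfl | rfl)
          · show g1 (of 1) ∈ Dg (ZMod 9)
            rw [g1_1]; exact Subgroup.one_mem _
          · show g1 (of 2) ∈ Dg (ZMod 9)
            rw [g1_2]; exact ⟨rfl, rfl, rfl⟩) w hw).2.1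
        show dl (g1 w).q = 0
        rw [h1]; rfl
      · exact absurd rfl he
      · refine (wd_map g3 _ (Dg (ZMod 3)) ?_ w hw).2.1
        rintro i (rfl | rfl)
        · show g3 (of 1) ∈ Dg (ZMod 3)
          rw [g3_1]; exact Subgroup.one_mem _
        · show g3 (of 2) ∈ Dg (ZMod 3)
          rw [g3_2]; exact ⟨rfl, rfl, rfl⟩
    · -- 1, 3
      refine two2 0 fun K _ ω w hw e he => ?_
      fin_cases e
      · exact absurd rfl he
      · refine (wd_map (f2 ω) _ (Dg K) ?_ w hw).2.1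
        rintro i (rfl | rfl)
        · show f2 ω (of 1) ∈ Dg K
          rw [f2_1]; exact Subgroup.one_mem _
        · show f2 ω (of 3) ∈ Dg K
          rw [f2_3]; exact Subgroup.one_mem _
      · refine (wd_map (f3 ω) _ (Dp K) ?_ w hw).2
        rintro i (rfl | rfl)
        · show f3 ω (of 1) ∈ Dp K
          rw [f3_1]; exact Subgroup.one_mem _
        · show f3 ω (of 3) ∈ Dp K
          rw [f3_3]; exact ⟨rfl, rfl⟩
    · -- 2, 3
      refine two3 2 fun w hw e he => ?_
      have hw' : w ∈ Subgroup.closure ({of 2, of 3} : Set F4) := by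
        have h1 := hw
        rw [Wd] at h1
        erw [pair_set] at h1
        exact h1
      fin_cases e
      · exact (zt3 w hw').1
      · exact (zt3 w hw').2
      · exact absurd rfl he
  rcases lt_or_gt_of_ne hij with hlt | hlt
  · exact key i j hlt ha hb two2 two3
  · have hs : ({i, j} : Set (Fin 4)) = {j, i} := Set.pair_comm i j
    rw [hs] at ha hb two2 two3
    exact key j i hlt ha hb two2 two3

/-- three words without the letter `p` -/
theorem omit_wd (p : Fin 4) (a b c : F4) (ha : a ∈ Wd {i | i ≠ p}) (hb : b ∈ Wd {i | i ≠ p})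
    (hc : c ∈ Wd {i | i ≠ p}) : Subgroup.normalClosure ({a, b, c} : Set F4) ≠ RR := by
  intro h
  have col2 : ∀ (d : Fin 3), (∀ (K : Type) [Field K] (ω : Kˣ) (w : F4), w ∈ Wd {i | i ≠ p} →
      ph2 ω d w = 0) → False := by
    intro d hd
    obtain ⟨K, _, ω, h2, hω⟩ := exists_om
    rw [← range3] at h
    refine det2 ω h2 hω _ h (det_col _ d ?_)
    intro e
    fin_cases e
    · exact hd K ω a ha
    · exact hd K ω b hb
    · exact hd K ω c hc
  have col3 : ∀ (d : Fin 3), (∀ w : F4, w ∈ Wd {i | i ≠ p} → ph3 d w = 0) → False := by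
    intro d hd
    have : Fact (Nat.Prime 3) := ⟨Nat.prime_three⟩
    rw [← range3'] at h
    refine det3 _ h (det_col _ d ?_)
    intro e
    fin_cases e
    · exact hd a ha
    · exact hd b hb
    · exact hd c hc
  fin_cases p
  · refine col3 0 fun w hw => ?_
    have h1 := (wd_map g1 _ (Dg (ZMod 9)) (by
      intro i hi
      fin_cases i
      · exact absurd rfl hi
      · show g1 (of 1) ∈ Dg (ZMod 9)
        rw [g1_1]; exact Subgroup.one_mem _
      · show g1 (of 2) ∈ Dg (ZMod 9)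
        rw [g1_2]; exact ⟨rfl, rfl, rfl⟩
      · show g1 (of 3) ∈ Dg (ZMod 9)
        rw [g1_3]; exact Subgroup.one_mem _) w hw).2.1
    show dl (g1 w).q = 0
    rw [h1]; rfl
  · refine col2 0 fun K _ ω w hw => ?_
    refine (wd_map (f1 ω) _ (Dg K) ?_ w hw).2.1
    intro i hi
    fin_cases i
    · show f1 ω (of 0) ∈ Dg K
      rw [f1_0]; exact ⟨rfl, rfl, rfl⟩
    · exact absurd rfl hi
    · show f1 ω (of 2) ∈ Dg K
      rw [f1_2]; exact Subgroup.one_mem _
    · show f1 ω (of 3) ∈ Dg K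
      rw [f1_3]; exact Subgroup.one_mem _
  · refine col2 1 fun K _ ω w hw => ?_
    refine (wd_map (f2 ω) _ (Dg K) ?_ w hw).2.1
    intro i hi
    fin_cases i
    · show f2 ω (of 0) ∈ Dg K
      rw [f2_0]; exact ⟨rfl, rfl, rfl⟩
    · show f2 ω (of 1) ∈ Dg K
      rw [f2_1]; exact Subgroup.one_mem _
    · exact absurd rfl hi
    · show f2 ω (of 3) ∈ Dg K
      rw [f2_3]; exact Subgroup.one_mem _
  · refine col2 2 fun K _ ω w hw => ?_
    refine (wd_map (f3 ω) _ (Du K) ?_ w hw).1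
    intro i hi
    fin_cases i
    · show f3 ω (of 0) ∈ Du K
      rw [f3_0]; exact ⟨rfl, rfl⟩
    · show f3 ω (of 1) ∈ Du K
      rw [f3_1]; exact Subgroup.one_mem _
    · show f3 ω (of 2) ∈ Du K
      rw [f3_2]; exact ⟨rfl, rfl⟩
    · exact absurd rfl hi

/-! ### powers -/

theorem Tg_pow {K : Type} [CommRing K] (a : Tg K) (m : ℕ) :
    (((a ^ m).l : Kˣ) : K) = (a.l : K) ^ m ∧ (a ^ m).u = m * a.u ∧
    ((a.l : K) - 1) * (a ^ m).p = ((a.l : K) ^ m - 1) * a.p ∧
    ((a.l : K) - 1) ^ 2 * (a ^ m).q = ((a.l : K) - 1) * ((a.l : K) ^ m - 1) * a.q +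
      a.p * a.u * (((a.l : K) ^ m - 1) - m * ((a.l : K) - 1)) := by
  induction m with
  | zero => simp
  | succ m ih =>
    obtain ⟨h1, h2, h3, h4⟩ := ih
    have e1 : (a ^ (m + 1)).l = (a ^ m).l * a.l := by rw [pow_succ, Tg.mul_l]
    have e2 : (a ^ (m + 1)).u = (a ^ m).u + a.u := by rw [pow_succ, Tg.mul_u]
    have e3 : (a ^ (m + 1)).p = (a ^ m).l * a.p + (a ^ m).p := by rw [pow_succ, Tg.mul_p]
    have e4 : (a ^ (m + 1)).q = (a ^ m).l * a.q + (a ^ m).p * a.u + (a ^ m).q := by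
      rw [pow_succ, Tg.mul_q]
    refine ⟨?_, ?_, ?_, ?_⟩
    · rw [e1, Units.val_mul, h1, pow_succ]
    · rw [e2, h2]; push_cast; ring
    · rw [e3, h1]; linear_combination h3
    · rw [e4, h1]; push_cast
      linear_combination h4 + ((a.l : K) - 1) * a.u * h3

theorem Tg_pow_zero {K : Type} [Field K] (a : Tg K) (m : ℕ) (h : a.l ≠ 1) (h1 : (a ^ m).l = 1)
    (h2 : (a ^ m).u = 0) : (a ^ m).q = 0 := by
  obtain ⟨e1, e2, e3, e4⟩ := Tg_pow a m
  rw [h1, Units.val_one] at e1
  rw [h2] at e2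
  rw [← e1] at e4
  have h3 : (a.l : K) - 1 ≠ 0 := by
    intro h4
    apply h
    ext
    rw [Units.val_one]
    exact sub_eq_zero.1 h4
  have h5 : ((a.l : K) - 1) ^ 2 * (a ^ m).q = 0 := by
    linear_combination e4 + a.p * ((a.l : K) - 1) * e2
  exact (mul_eq_zero.1 h5).resolve_left (pow_ne_zero 2 h3)

theorem r2mem {K : Type} [Field K] (ω : Kˣ) (h2 : (2 : K) = 0) (hω : (ω : K) ^ 2 + ω + 1 = 0)
    (g : F4) (hg : g ∈ RR) : f1 ω g ∈ Tg.Z (⊤ : Ideal K) ∧ f2 ω g ∈ Tg.Z (⊤ : Ideal K) ∧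
      f3 ω g ∈ Tg.Z (⊤ : Ideal K) := by
  refine ⟨?_, ?_, ?_⟩
  · refine (eqF_of_hom (f1 ω) ⊤ ?_ id (fun g => ((f1 ω g).l : K)) (fun _ _ _ _ => rfl)
      (fun g a _ => rfl)).2 g hg
    rintro ρ (rfl | rfl | rfl | rfl)
    · rw [v1x ω hω]; exact Subgroup.one_mem _
    · rw [v1z]; exact Subgroup.one_mem _
    · rw [v1c]; exact mem_top_q _
    · rw [v1d]; exact Subgroup.one_mem _
  · refine (eqF_of_hom (f2 ω) ⊤ ?_ id (fun g => ((f1 ω g).l : K)) (fun _ _ _ _ => rfl)
      (fun g a _ => by rw [lh_eq2]; rfl)).2 g hg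
    rintro ρ (rfl | rfl | rfl | rfl)
    · rw [v2x ω hω]; exact Subgroup.one_mem _
    · rw [v2z ω h2]; exact mem_top_q _
    · rw [v2c]; exact Subgroup.one_mem _
    · rw [v2d]; exact Subgroup.one_mem _
  · refine (eqF_of_hom (f3 ω) ⊤ ?_ id (fun g => ((f1 ω g).l : K)) (fun _ _ _ _ => rfl)
      (fun g a _ => by rw [lh_eq3]; rfl)).2 g hg
    rintro ρ (rfl | rfl | rfl | rfl)
    · rw [v3x ω hω]; exact Subgroup.one_mem _
    · rw [v3z ω h2]; exact Subgroup.one_mem _
    · rw [v3c]; exact Subgroup.one_mem _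
    · rw [v3d]; exact mem_top_q _

theorem dec9 : ∀ q : ZMod 9, (-1 - 1) * q = 0 → q = 0 := by decide

/-- the root of a relator has trivial characters -/
theorem pow_char {K : Type} [Field K] (ω : Kˣ) (h2 : (2 : K) = 0)
    (hω : (ω : K) ^ 2 + ω + 1 = 0) (s : F4) (m : ℕ) (b c : F4)
    (h : Subgroup.normalClosure ({s ^ m, b, c} : Set F4) = RR) :
    (f1 ω s).l = 1 ∧ sgn s = 1 := by
  have hs : s ^ m ∈ RR := by
    rw [← h]
    exact Subgroup.subset_normalClosure (by simp)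
  constructor
  · by_contra hne
    obtain ⟨k1, k2, k3⟩ := r2mem ω h2 hω _ hs
    rw [map_pow] at k1 k2 k3
    have e1 : ph2 ω 0 (s ^ m) = 0 := by
      show (f1 ω (s ^ m)).q = 0
      rw [map_pow]
      exact Tg_pow_zero _ m hne k1.1 k1.2.2.1
    have e2 : ph2 ω 1 (s ^ m) = 0 := by
      show (f2 ω (s ^ m)).q = 0
      rw [map_pow]
      exact Tg_pow_zero _ m (by rw [lh_eq2]; exact hne) k2.1 k2.2.2.1
    have e3 : ph2 ω 2 (s ^ m) = 0 := by
      show (f3 ω (s ^ m)).q = 0
      rw [map_pow]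
      exact Tg_pow_zero _ m (by rw [lh_eq3]; exact hne) k3.1 k3.2.2.1
    rw [← range3] at h
    refine det2 ω h2 hω _ h (Matrix.det_eq_zero_of_row_eq_zero 0 ?_)
    intro j
    fin_cases j
    · exact e1
    · exact e2
    · exact e3
  · by_contra hne
    have : Fact (Nat.Prime 3) := ⟨Nat.prime_three⟩
    have k1 := e1.2 _ hs
    have k2 := e2.2 _ hs
    have k3 := e3.2 _ hs
    rw [map_pow] at k1 k2 k3
    have d1 : ph3 0 (s ^ m) = 0 := by
      show dl (g1 (s ^ m)).q = 0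
      rw [map_pow]
      have hl : (g1 s).l = -1 := ((lg1 s).resolve_left fun h4 => hne h4.1).2
      have hS : g1 s ∈ Sg (ZMod 9) := by
        refine wd_map g1 Set.univ (Sg (ZMod 9)) ?_ s ?_
        · intro i _
          fin_cases i
          · show g1 (of 0) ∈ Sg (ZMod 9)
            rw [g1_0]; exact ⟨rfl, rfl⟩
          · show g1 (of 1) ∈ Sg (ZMod 9)
            rw [g1_1]; exact Subgroup.one_mem _
          · show g1 (of 2) ∈ Sg (ZMod 9)
            rw [g1_2]; exact ⟨rfl, rfl⟩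
          · show g1 (of 3) ∈ Sg (ZMod 9)
            rw [g1_3]; exact Subgroup.one_mem _
        · rw [Wd, Set.image_univ, FreeGroup.closure_range_of]
          exact Subgroup.mem_top s
      have h5 := Sg_pow _ hS m
      rw [k1.1, hl, Units.val_one, sub_self, zero_mul, Units.val_neg, Units.val_one] at h5
      rw [dec9 _ h5]
      rfl
    have d2 : ph3 1 (s ^ m) = 0 := by
      show (g2 (s ^ m)).q = 0
      rw [map_pow]
      have hl : (g2 s).l = -1 := ((lg2 s).resolve_left fun h4 => hne h4.1).2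
      exact Tg_pow_zero _ m (by rw [hl]; exact m13) k2.1 k2.2.2.1
    have d3 : ph3 2 (s ^ m) = 0 := by
      show (g3 (s ^ m)).q = 0
      rw [map_pow]
      have hl : (g3 s).l = -1 := ((lg3 s).resolve_left fun h4 => hne h4.1).2
      exact Tg_pow_zero _ m (by rw [hl]; exact m13) k3.1 k3.2.2.1
    rw [← range3'] at h
    refine det3 _ h (Matrix.det_eq_zero_of_row_eq_zero 0 ?_)
    intro j
    fin_cases j
    · exact d1
    · exact d2
    · exact d3

end Pool.Agent.T3R
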