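import Mathlib

/-!
# Equivariant functionals on the relators of `(ℤ₃ × ℤ) * (ℤ₂ × ℤ)`

(helper14, problem MP_6b13af_al)

`R` = normal closure of `x³, z², [x,y], [z,t]` in the free group `F` on `x, y, z, t` (`of 0, of 1, of 2, of 3`).
-/

set_option autoImplicit false

namespace Pool.Agent.T3R

/-- the free group on `x, y, z, t` -/
abbrev F4 : Type := FreeGroup (Fin 4)

/-- `[x,y]`, as in the frozen statement -/
def cxy : F4 := FreeGroup.of 0 * FreeGroup.of 1 * (FreeGroup.of 0)⁻¹ * (FreeGroup.of 1)⁻¹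

/-- `[z,t]` -/
def czt : F4 := FreeGroup.of 2 * FreeGroup.of 3 * (FreeGroup.of 2)⁻¹ * (FreeGroup.of 3)⁻¹

/-- the relators of `H` -/
def RR : Subgroup F4 :=
  Subgroup.normalClosure ({FreeGroup.of 0 ^ 3, FreeGroup.of 2 ^ 2, cxy, czt} : Set F4)

instance : RR.Normal := Subgroup.normalClosure_normal

theorem x3_mem : (FreeGroup.of 0 ^ 3 : F4) ∈ RR := Subgroup.subset_normalClosure (by simp)
theorem z2_mem : (FreeGroup.of 2 ^ 2 : F4) ∈ RR := Subgroup.subset_normalClosure (by simp)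
theorem cxy_mem : cxy ∈ RR := Subgroup.subset_normalClosure (by simp)
theorem czt_mem : czt ∈ RR := Subgroup.subset_normalClosure (by simp)

/-- the matrices `(l p q; 0 1 u; 0 0 1)` -/
@[ext] structure Tg (K : Type) [CommRing K] where
  l : Kˣ
  p : K
  q : K
  u : K

namespace Tg

variable {K : Type} [CommRing K]

instance : Mul (Tg K) := ⟨fun a b => ⟨a.l * b.l, a.l * b.p + a.p, a.l * b.q + a.p * b.u + a.q,
  a.u + b.u⟩⟩
instance : One (Tg K) := ⟨⟨1, 0, 0, 0⟩⟩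
instance : Inv (Tg K) := ⟨fun a => ⟨a.l⁻¹, -(((a.l⁻¹ : Kˣ) : K) * a.p),
  ((a.l⁻¹ : Kˣ) : K) * (a.p * a.u - a.q), -a.u⟩⟩

@[simp] theorem mul_l (a b : Tg K) : (a * b).l = a.l * b.l := rfl
@[simp] theorem mul_p (a b : Tg K) : (a * b).p = a.l * b.p + a.p := rfl
@[simp] theorem mul_q (a b : Tg K) : (a * b).q = a.l * b.q + a.p * b.u + a.q := rfl
@[simp] theorem mul_u (a b : Tg K) : (a * b).u = a.u + b.u := rfl
@[simp] theorem one_l : (1 : Tg K).l = 1 := rfl
@[simp] theorem one_p : (1 : Tg K).p = 0 := rfl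
@[simp] theorem one_q : (1 : Tg K).q = 0 := rfl
@[simp] theorem one_u : (1 : Tg K).u = 0 := rfl
@[simp] theorem inv_l (a : Tg K) : (a⁻¹).l = a.l⁻¹ := rfl
@[simp] theorem inv_p (a : Tg K) : (a⁻¹).p = -(((a.l⁻¹ : Kˣ) : K) * a.p) := rfl
@[simp] theorem inv_q (a : Tg K) : (a⁻¹).q = ((a.l⁻¹ : Kˣ) : K) * (a.p * a.u - a.q) := rfl
@[simp] theorem inv_u (a : Tg K) : (a⁻¹).u = -a.u := rfl

instance : Group (Tg K) where
  mul_assoc a b c := by
    ext
    · simp [mul_assoc]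
    · simp only [mul_l, mul_p, Units.val_mul]; ring
    · simp only [mul_l, mul_p, mul_q, mul_u, Units.val_mul]; ring
    · simp only [mul_u]; ring
  one_mul a := by ext <;> simp
  mul_one a := by ext <;> simp
  inv_mul_cancel a := by
    ext
    · simp
    · simp only [mul_p, inv_l, inv_p, one_p]; ring
    · simp only [mul_q, inv_l, inv_p, inv_q, one_q]; ring
    · simp

/-- the homomorphism `l` -/
def lh : Tg K →* Kˣ where
  toFun := l
  map_one' := rfl
  map_mul' _ _ := rfl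

/-- the normal subgroup `l = 1, p = u = 0, q ∈ I` -/
def Z (I : Ideal K) : Subgroup (Tg K) where
  carrier := {a | a.l = 1 ∧ a.p = 0 ∧ a.u = 0 ∧ a.q ∈ I}
  one_mem' := ⟨rfl, rfl, rfl, I.zero_mem⟩
  mul_mem' := by
    rintro a b ⟨h1, h2, h3, h4⟩ ⟨g1, g2, g3, g4⟩
    refine ⟨?_, ?_, ?_, ?_⟩
    · rw [mul_l, h1, g1, one_mul]
    · rw [mul_p, h2, g2, mul_zero, add_zero]
    · rw [mul_u, h3, g3, add_zero]
    · rw [mul_q, h1, h2, zero_mul, add_zero, Units.val_one, one_mul]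
      exact I.add_mem g4 h4
  inv_mem' := by
    rintro a ⟨h1, h2, h3, h4⟩
    refine ⟨?_, ?_, ?_, ?_⟩
    · rw [inv_l, h1, inv_one]
    · rw [inv_p, h2, mul_zero, neg_zero]
    · rw [inv_u, h3, neg_zero]
    · rw [inv_q, h1, h2, zero_mul, zero_sub, inv_one, Units.val_one, one_mul]
      exact I.neg_mem h4

theorem conj_q (g a : Tg K) (h1 : a.l = 1) (h2 : a.p = 0) (h3 : a.u = 0) :
    (g * a * g⁻¹).q = g.l * a.q := by
  simp only [mul_q, mul_l, mul_p, mul_u, inv_q, inv_l, inv_p, inv_u, h1, h2, h3, mul_one,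
    mul_zero, add_zero, zero_add]
  have h : (g.l : K) * ((g.l⁻¹ : Kˣ) : K) = 1 := Units.mul_inv g.l
  linear_combination (g.p * g.u - g.q) * h

instance (I : Ideal K) : (Z I).Normal where
  conj_mem := by
    rintro a ⟨h1, h2, h3, h4⟩ g
    refine ⟨?_, ?_, ?_, ?_⟩
    · rw [mul_l, mul_l, inv_l, h1, mul_one, mul_inv_cancel]
    · simp only [mul_p, mul_l, inv_p, h1, h2, mul_one, mul_zero, zero_add]
      have h : (g.l : K) * ((g.l⁻¹ : Kˣ) : K) = 1 := Units.mul_inv g.l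
      linear_combination (-g.p) * h
    · simp only [mul_u, inv_u, h3]; ring
    · rw [conj_q g a h1 h2 h3]
      exact I.mul_mem_left _ h4

end Tg

/-- equivariant functionals -/
def EqF {K : Type} [Field K] (c : F4 → K) (φ : F4 → K) : Prop :=
  (∀ g ∈ RR, ∀ h ∈ RR, φ (g * h) = φ g + φ h) ∧ ∀ g, ∀ h ∈ RR, φ (g * h * g⁻¹) = c g * φ h

theorem det_ne_zero {K : Type} [Field K] {c : F4 → K} (φ : Fin 3 → F4 → K)
    (hφ : ∀ i, EqF c (φ i)) (ρ : Fin 3 → F4) (hρ : ∀ i, ρ i ∈ RR)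
    (hd : ∀ i j, i ≠ j → φ i (ρ j) = 0) (hn : ∀ i, φ i (ρ i) ≠ 0) (r : Fin 3 → F4)
    (hr : Subgroup.normalClosure (Set.range r) = RR) :
    (Matrix.of fun j i => φ i (r j)).det ≠ 0 := by
  intro hdet
  obtain ⟨v, hv, hv2⟩ := Matrix.exists_mulVec_eq_zero_iff.2 hdet
  have hone : ∀ i, φ i 1 = 0 := by
    intro i
    have h1 := (hφ i).1 1 (Subgroup.one_mem _) 1 (Subgroup.one_mem _)
    rw [one_mul] at h1
    exact left_eq_add.1 h1
  let N : Subgroup F4 :=
    { carrier := {g | g ∈ RR ∧ ∑ i, φ i g * v i = 0}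
      one_mem' := ⟨Subgroup.one_mem _, by simp [hone]⟩
      mul_mem' := by
        rintro a b ⟨h1, h2⟩ ⟨h3, h4⟩
        refine ⟨Subgroup.mul_mem _ h1 h3, ?_⟩
        have h5 : ∀ i, φ i (a * b) * v i = φ i a * v i + φ i b * v i := by
          intro i
          rw [(hφ i).1 a h1 b h3, add_mul]
        rw [Finset.sum_congr rfl fun i _ => h5 i, Finset.sum_add_distrib, h2, h4, add_zero]
      inv_mem' := by
        rintro a ⟨h1, h2⟩
        refine ⟨Subgroup.inv_mem _ h1, ?_⟩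
        have h5 : ∀ i, φ i a⁻¹ * v i = -(φ i a * v i) := by
          intro i
          have h6 := (hφ i).1 a h1 a⁻¹ (Subgroup.inv_mem _ h1)
          rw [mul_inv_cancel, hone] at h6
          have h7 : φ i a⁻¹ = -φ i a := (neg_eq_of_add_eq_zero_right h6.symm).symm
          rw [h7, neg_mul]
        rw [Finset.sum_congr rfl fun i _ => h5 i, Finset.sum_neg_distrib, h2, neg_zero] }
  have hN : N.Normal := ⟨by
    rintro a ⟨h1, h2⟩ g
    refine ⟨Subgroup.Normal.conj_mem inferInstance a h1 g, ?_⟩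
    have h5 : ∀ i, φ i (g * a * g⁻¹) * v i = c g * (φ i a * v i) := by
      intro i
      rw [(hφ i).2 g a h1, mul_assoc]
    rw [Finset.sum_congr rfl fun i _ => h5 i, ← Finset.mul_sum, h2, mul_zero]⟩
  have hle : RR ≤ N := by
    rw [← hr]
    refine Subgroup.normalClosure_le_normal ?_
    rintro _ ⟨j, rfl⟩
    refine ⟨?_, ?_⟩
    · rw [← hr]
      exact Subgroup.subset_normalClosure ⟨j, rfl⟩
    · have h1 := congrFun hv2 j
      simpa [Matrix.mulVec, dotProduct] using h1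
  apply hv
  funext j
  have h1 := (hle (hρ j)).2
  rw [Finset.sum_eq_single j] at h1
  · exact (mul_eq_zero.1 h1).resolve_left (hn j)
  · intro i _ hij
    rw [hd i j hij, zero_mul]
  · intro h; exact absurd (Finset.mem_univ j) h

/-- functionals from homomorphisms to `Tg` -/
theorem eqF_of_hom {K A : Type} [Field K] [CommRing A] (f : F4 →* Tg A) (I : Ideal A)
    (hf : ∀ ρ ∈ ({FreeGroup.of 0 ^ 3, FreeGroup.of 2 ^ 2, cxy, czt} : Set F4), f ρ ∈ Tg.Z I)
    (δ : A → K) (c : F4 → K) (h1 : ∀ a ∈ I, ∀ b ∈ I, δ (a + b) = δ a + δ b)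
    (h2 : ∀ g, ∀ a ∈ I, δ ((f g).l * a) = c g * δ a) :
    EqF c (fun g => δ (f g).q) ∧ ∀ g ∈ RR, f g ∈ Tg.Z I := by
  have hR : ∀ g ∈ RR, f g ∈ Tg.Z I := by
    intro g hg
    have h3 : RR ≤ (Tg.Z I).comap f := by
      refine Subgroup.normalClosure_le_normal ?_
      intro ρ hρ
      exact hf ρ hρ
    exact h3 hg
  refine ⟨⟨?_, ?_⟩, hR⟩
  · intro g hg h hh
    obtain ⟨e1, e2, e3, e4⟩ := hR g hg
    obtain ⟨d1, d2, d3, d4⟩ := hR h hh
    show δ (f (g * h)).q = _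
    rw [map_mul, Tg.mul_q, e1, e2, zero_mul, add_zero, Units.val_one, one_mul, h1 _ d4 _ e4,
      add_comm]
  · intro g h hh
    obtain ⟨d1, d2, d3, d4⟩ := hR h hh
    show δ (f (g * h * g⁻¹)).q = _
    rw [map_mul, map_mul, map_inv, Tg.conj_q _ _ d1 d2 d3, h2 g _ d4]

end Pool.Agent.T3R
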