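import Pool.Agent.Lib.LTree.Defs

/-!
# The tree of a free product `P * Q`

(helper14, problem MP_6b13af_al; the same method as in `Pool/Agent/Lib/MagH/Tree.lean`)
-/

set_option autoImplicit false

open scoped Classical

namespace Pool.Agent.T3R

open Pool.Agent.LTree Pool.Agent.LOTI

/-- `A` is the free product of the images of `j` and `k` -/
structure FreeProd {P Q A : Type} [Group P] [Group Q] [Group A] (j : P →* A) (k : Q →* A) :
    Prop where
  gen : ∀ H : Subgroup A, (∀ p, j p ∈ H) → (∀ q, k q ∈ H) → H = ⊤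
  univ : ∀ (Y : Type) [Group Y] (f : P →* Y) (g : Q →* Y),
    ∃ F : A →* Y, (∀ p, F (j p) = f p) ∧ ∀ q, F (k q) = g q

/-- the action of `P` -/
private def prF {P A X : Type} [Group P] [Group A] (j : P →* A) : P →* Equiv.Perm (A × X) where
  toFun p :=
    { toFun := fun y => (y.1 * (j p)⁻¹, y.2)
      invFun := fun y => (y.1 * j p, y.2)
      left_inv := fun y => by
        show (y.1 * (j p)⁻¹ * j p, y.2) = y
        rw [inv_mul_cancel_right]
      right_inv := fun y => by
        show (y.1 * j p * (j p)⁻¹, y.2) = y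
        rw [mul_inv_cancel_right] }
  map_one' := by
    ext1 y
    show (y.1 * (j 1)⁻¹, y.2) = y
    rw [map_one, inv_one, mul_one]
  map_mul' p q := by
    ext1 y
    show (y.1 * (j (p * q))⁻¹, y.2) = (y.1 * (j q)⁻¹ * (j p)⁻¹, y.2)
    rw [map_mul, mul_inv_rev, mul_assoc]

/-- the action of `Q` -/
private def prG {Q A : Type} [Group Q] [Group A] (k : Q →* A) :
    Q →* Equiv.Perm (A × FreeGroup A) where
  toFun q :=
    { toFun := fun y => (y.1 * (k q)⁻¹,
        y.2 * (FreeGroup.of y.1 * (FreeGroup.of (y.1 * (k q)⁻¹))⁻¹))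
      invFun := fun y => (y.1 * k q, y.2 * (FreeGroup.of y.1 * (FreeGroup.of (y.1 * k q))⁻¹))
      left_inv := fun y => by
        show (y.1 * (k q)⁻¹ * k q, y.2 * (FreeGroup.of y.1 * (FreeGroup.of (y.1 * (k q)⁻¹))⁻¹) *
          (FreeGroup.of (y.1 * (k q)⁻¹) * (FreeGroup.of (y.1 * (k q)⁻¹ * k q))⁻¹)) = y
        rw [inv_mul_cancel_right]
        refine Prod.ext rfl ?_
        show _ = y.2
        group
      right_inv := fun y => by
        show (y.1 * k q * (k q)⁻¹, y.2 * (FreeGroup.of y.1 * (FreeGroup.of (y.1 * k q))⁻¹) *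
          (FreeGroup.of (y.1 * k q) * (FreeGroup.of (y.1 * k q * (k q)⁻¹))⁻¹)) = y
        rw [mul_inv_cancel_right]
        refine Prod.ext rfl ?_
        show _ = y.2
        group }
  map_one' := by
    ext1 y
    show (y.1 * (k 1)⁻¹, y.2 * (FreeGroup.of y.1 * (FreeGroup.of (y.1 * (k 1)⁻¹))⁻¹)) = y
    rw [map_one, inv_one, mul_one, mul_inv_cancel, mul_one]
  map_mul' p q := by
    ext1 y
    show (y.1 * (k (p * q))⁻¹,
        y.2 * (FreeGroup.of y.1 * (FreeGroup.of (y.1 * (k (p * q))⁻¹))⁻¹)) =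
      (y.1 * (k q)⁻¹ * (k p)⁻¹,
        y.2 * (FreeGroup.of y.1 * (FreeGroup.of (y.1 * (k q)⁻¹))⁻¹) *
          (FreeGroup.of (y.1 * (k q)⁻¹) * (FreeGroup.of (y.1 * (k q)⁻¹ * (k p)⁻¹))⁻¹))
    rw [map_mul, mul_inv_rev, mul_assoc y.1]
    refine Prod.ext rfl ?_
    show y.2 * _ = y.2 * _ * _
    group

private theorem pr_pot {P Q A : Type} [Group P] [Group Q] [Group A] {j : P →* A} {k : Q →* A}
    (h : FreeProd j k) :
    ∃ μ : A → FreeGroup A, (∀ a p, μ (a * j p) = μ a) ∧
      ∀ a q, μ (a * k q) * FreeGroup.of (a * k q) = μ a * FreeGroup.of a := by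
  obtain ⟨Θ, hΘ1, hΘ2⟩ := h.univ (Equiv.Perm (A × FreeGroup A)) (prF j) (prG k)
  have key : ∀ (b : A) (y : A × FreeGroup A), (Θ b y).1 = y.1 * b⁻¹ := by
    let C : Subgroup A :=
      { carrier := {b | ∀ y : A × FreeGroup A, (Θ b y).1 = y.1 * b⁻¹}
        mul_mem' := by
          intro b c hb hc y
          rw [map_mul]
          show (Θ b (Θ c y)).1 = _
          rw [hb, hc, mul_inv_rev, mul_assoc]
        one_mem' := by
          intro y
          rw [map_one, inv_one, mul_one]
          rfl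
        inv_mem' := by
          intro b hb y
          have h1 := hb (Θ b⁻¹ y)
          have h2 : Θ b (Θ b⁻¹ y) = y := by
            rw [← Equiv.Perm.mul_apply, ← map_mul, mul_inv_cancel, map_one]
            rfl
          rw [h2] at h1
          rw [h1, inv_inv, inv_mul_cancel_right] }
    have hC : C = ⊤ := by
      refine h.gen C ?_ ?_
      · intro p y
        rw [hΘ1]
        rfl
      · intro i y
        rw [hΘ2]
        rfl
    intro b
    have h1 : b ∈ C := by
      rw [hC]
      exact Subgroup.mem_top b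
    exact h1
  have hμ : ∀ a, Θ a⁻¹ (1, 1) = (a, (Θ a⁻¹ (1, 1)).2) := by
    intro a
    have h1 := key a⁻¹ (1, 1)
    rw [inv_inv, one_mul] at h1
    exact Prod.ext h1 rfl
  have hmul : ∀ a b, Θ (a * b)⁻¹ (1, 1) = (Θ b)⁻¹ (a, (Θ a⁻¹ (1, 1)).2) := by
    intro a b
    rw [mul_inv_rev, map_mul, Equiv.Perm.mul_apply, hμ a, map_inv]
  refine ⟨fun a => (Θ a⁻¹ (1, 1)).2, ?_, ?_⟩
  · intro a p
    show (Θ (a * j p)⁻¹ (1, 1)).2 = _
    rw [hmul, hΘ1]
    rfl
  · intro a i
    show (Θ (a * k i)⁻¹ (1, 1)).2 * _ = _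
    rw [hmul, hΘ2]
    show (Θ a⁻¹ (1, 1)).2 * (FreeGroup.of a * (FreeGroup.of (a * k i))⁻¹) *
      FreeGroup.of (a * k i) = _
    group

/-- the action on the edges -/
@[reducible] private def prAct (A : Type) [Group A] : MulAction A A where
  smul g e := g * e
  one_smul e := one_mul e
  mul_smul g h e := mul_assoc g h e

/-- the action on the vertices -/
@[reducible] private def prActV {A : Type} [Group A] (J K : Subgroup A) :
    MulAction A ((A ⧸ J) ⊕ (A ⧸ K)) where
  smul g v := v.elim (fun a => Sum.inl (g • a)) (fun a => Sum.inr (g • a))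
  one_smul v := by
    rcases v with v | v
    · exact congrArg Sum.inl (one_smul A v)
    · exact congrArg Sum.inr (one_smul A v)
  mul_smul g h v := by
    rcases v with v | v
    · exact congrArg Sum.inl (mul_smul g h v)
    · exact congrArg Sum.inr (mul_smul g h v)

/-- the tree -/
private def prT {P Q A : Type} [Group P] [Group Q] [Group A] {j : P →* A} {k : Q →* A}
    (h : FreeProd j k) : GTree A where
  V := (A ⧸ j.range) ⊕ (A ⧸ k.range)
  E := A
  actV := prActV _ _
  actE := prAct A
  ne := ⟨Sum.inl (QuotientGroup.mk 1)⟩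
  o e := Sum.inl (QuotientGroup.mk e)
  t e := Sum.inr (QuotientGroup.mk e)
  o_smul g e := rfl
  t_smul g e := rfl
  conn := by
    have step : ∀ e : A, Relation.EqvGen (fun x y : (A ⧸ j.range) ⊕ (A ⧸ k.range) =>
        ∃ e : A, x = Sum.inl (QuotientGroup.mk e) ∧ y = Sum.inr (QuotientGroup.mk e))
        (Sum.inl (QuotientGroup.mk e)) (Sum.inr (QuotientGroup.mk e)) := fun e =>
      Relation.EqvGen.rel _ _ ⟨e, rfl, rfl⟩
    have key : ∀ a b : A, Relation.EqvGen (fun x y : (A ⧸ j.range) ⊕ (A ⧸ k.range) =>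
        ∃ e : A, x = Sum.inl (QuotientGroup.mk e) ∧ y = Sum.inr (QuotientGroup.mk e))
        (Sum.inl (QuotientGroup.mk b)) (Sum.inl (QuotientGroup.mk (b * a))) := by
      let C : Subgroup A :=
        { carrier := {a | ∀ b : A, Relation.EqvGen (fun x y : (A ⧸ j.range) ⊕ (A ⧸ k.range) =>
            ∃ e : A, x = Sum.inl (QuotientGroup.mk e) ∧ y = Sum.inr (QuotientGroup.mk e))
            (Sum.inl (QuotientGroup.mk b)) (Sum.inl (QuotientGroup.mk (b * a)))}
          mul_mem' := by
            intro a a' ha ha' b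
            have h1 := ha' (b * a)
            rw [mul_assoc] at h1
            exact Relation.EqvGen.trans _ _ _ (ha b) h1
          one_mem' := by
            intro b
            rw [mul_one]
            exact Relation.EqvGen.refl _
          inv_mem' := by
            intro a ha b
            have h1 := ha (b * a⁻¹)
            rw [inv_mul_cancel_right] at h1
            exact Relation.EqvGen.symm _ _ h1 }
      have hC : C = ⊤ := by
        refine h.gen C ?_ ?_
        · intro p b
          have h1 : (QuotientGroup.mk (b * j p) : A ⧸ j.range) = QuotientGroup.mk b :=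
            QuotientGroup.mk_mul_of_mem b ⟨p, rfl⟩
          rw [h1]
          exact Relation.EqvGen.refl _
        · intro q b
          have h1 : (QuotientGroup.mk (b * k q) : A ⧸ k.range) = QuotientGroup.mk b :=
            QuotientGroup.mk_mul_of_mem b ⟨q, rfl⟩
          have h2 := step (b * k q)
          rw [h1] at h2
          exact Relation.EqvGen.trans _ _ _ (step b) (Relation.EqvGen.symm _ _ h2)
      intro a
      have h1 : a ∈ C := by
        rw [hC]
        exact Subgroup.mem_top a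
      exact h1
    have key2 : ∀ v : (A ⧸ j.range) ⊕ (A ⧸ k.range),
        Relation.EqvGen (fun x y : (A ⧸ j.range) ⊕ (A ⧸ k.range) =>
        ∃ e : A, x = Sum.inl (QuotientGroup.mk e) ∧ y = Sum.inr (QuotientGroup.mk e))
        (Sum.inl (QuotientGroup.mk 1)) v := by
      rintro (v | v)
      · obtain ⟨a, rfl⟩ := QuotientGroup.mk_surjective v
        have h1 := key a 1
        rwa [one_mul] at h1
      · obtain ⟨a, rfl⟩ := QuotientGroup.mk_surjective v
        have h1 := key a 1
        rw [one_mul] at h1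
        exact Relation.EqvGen.trans _ _ _ h1 (step a)
    intro v w
    exact Relation.EqvGen.trans _ _ _ (Relation.EqvGen.symm _ _ (key2 v)) (key2 w)
  pot := by
    obtain ⟨μ, h1, h2⟩ := pr_pot h
    have h3 : ∀ a : A, μ (QuotientGroup.mk a : A ⧸ j.range).out = μ a := by
      intro a
      obtain ⟨⟨_, p, rfl⟩, h4⟩ := QuotientGroup.mk_out_eq_mul j.range a
      rw [h4]
      exact h1 a p
    have h5 : ∀ a : A, μ (QuotientGroup.mk a : A ⧸ k.range).out *
        FreeGroup.of (QuotientGroup.mk a : A ⧸ k.range).out = μ a * FreeGroup.of a := by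
      intro a
      obtain ⟨⟨_, p, rfl⟩, h4⟩ := QuotientGroup.mk_out_eq_mul k.range a
      rw [h4]
      exact h2 a p
    refine ⟨fun v => v.elim (fun a => μ a.out) (fun a => μ a.out * FreeGroup.of a.out),
      fun e => ?_⟩
    show μ (QuotientGroup.mk e : A ⧸ k.range).out *
        FreeGroup.of (QuotientGroup.mk e : A ⧸ k.range).out =
      μ (QuotientGroup.mk e : A ⧸ j.range).out * FreeGroup.of e
    rw [h3, h5]

private theorem stab_aux {P A : Type} [Group P] [Group A] (j : P →* A) (g a : A)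
    (h : (QuotientGroup.mk (a * g) : A ⧸ j.range) = QuotientGroup.mk g) :
    ∃ p : P, a = g * j p * g⁻¹ := by
  rw [QuotientGroup.eq] at h
  obtain ⟨p, hp⟩ := h
  refine ⟨p⁻¹, ?_⟩
  rw [map_inv, hp]
  group

/-- the tree of a free product -/
theorem prod_tree {P Q A : Type} [Group P] [Group Q] [Group A] {j : P →* A} {k : Q →* A}
    (h : FreeProd j k) :
    ∃ T : GTree A, T.Has ⊥ ∧
      (∀ (v : T.V) (a : A), a • v = v →
        (∃ (g : A) (p : P), a = g * j p * g⁻¹) ∨ ∃ (g : A) (q : Q), a = g * k q * g⁻¹) ∧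
      (∃ v₀ : T.V, ∀ p : P, j p • v₀ = v₀) := by
  refine ⟨prT h, ⟨?_, ?_⟩, ?_, ⟨Sum.inl (QuotientGroup.mk 1), ?_⟩⟩
  · intro g (a : A)
    constructor
    · intro h1
      have h2 : g * a = a := h1
      rw [Subgroup.mem_bot]
      exact mul_eq_right.1 h2
    · intro h1
      rw [Subgroup.mem_bot] at h1
      rw [h1]
      show (1 : A) * a = a
      exact one_mul a
  · intro g v hg
    rw [Subgroup.mem_bot] at hg
    rw [hg]
    exact (prT h).actV.one_smul v
  · rintro (v | v) a ha
    · left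
      obtain ⟨g, rfl⟩ := QuotientGroup.mk_surjective v
      have h1 : (Sum.inl (QuotientGroup.mk (a * g)) : (A ⧸ j.range) ⊕ (A ⧸ k.range)) =
        Sum.inl (QuotientGroup.mk g) := ha
      exact ⟨g, stab_aux j g a (Sum.inl.inj h1)⟩
    · right
      obtain ⟨g, rfl⟩ := QuotientGroup.mk_surjective v
      have h1 : (Sum.inr (QuotientGroup.mk (a * g)) : (A ⧸ j.range) ⊕ (A ⧸ k.range)) =
        Sum.inr (QuotientGroup.mk g) := ha
      exact ⟨g, stab_aux k g a (Sum.inr.inj h1)⟩
  · intro p
    show (Sum.inl (QuotientGroup.mk (j p * 1)) : (A ⧸ j.range) ⊕ (A ⧸ k.range)) =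
      Sum.inl (QuotientGroup.mk 1)
    have h1 : (QuotientGroup.mk (1 * j p) : A ⧸ j.range) = QuotientGroup.mk 1 :=
      QuotientGroup.mk_mul_of_mem 1 ⟨p, rfl⟩
    rw [mul_one, ← h1, one_mul]

end Pool.Agent.T3R
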