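import Pool.Agent.Lib.LTree.Axis

/-!
# Roots of elements without fixed vertex in a tree

(helper14, problem MP_6b13af_al)
-/

set_option autoImplicit false

open scoped Classical

namespace Pool.Agent.T3R

open Pool.Agent.LTree Pool.Agent.LOTI

variable {G : Type} [Group G]

/-- `n` consecutive letters of a bi-infinite path -/
private def seg {E : Type} (ℓ : ℤ → E × Bool) : ℕ → ℤ → List (E × Bool)
  | 0, _ => []
  | n + 1, i => ℓ i :: seg ℓ n (i + 1)

private theorem seg_len {E : Type} (ℓ : ℤ → E × Bool) (n : ℕ) (i : ℤ) : (seg ℓ n i).length = n := by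
  induction n generalizing i with
  | zero => rfl
  | succ n ih => show (seg ℓ n (i + 1)).length + 1 = n + 1; rw [ih]

private theorem seg_red {E : Type} (ℓ : ℤ → E × Bool)
    (h : ∀ i, (ℓ i).1 = (ℓ (i + 1)).1 → (ℓ i).2 = (ℓ (i + 1)).2) (n : ℕ) (i : ℤ) :
    FreeGroup.IsReduced (seg ℓ n i) := by
  induction n generalizing i with
  | zero => exact List.IsChain.nil
  | succ n ih =>
    cases n with
    | zero => exact List.IsChain.singleton _
    | succ n => exact List.IsChain.cons_cons (h i) (ih (i + 1))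

private theorem seg_W (T : GTree G) (ℓ : ℤ → T.E × Bool) (h : ∀ i, T.tgt (ℓ i) = T.src (ℓ (i + 1)))
    (n : ℕ) (i : ℤ) : T.W (T.src (ℓ i)) (seg ℓ n i) (T.src (ℓ (i + n))) := by
  induction n generalizing i with
  | zero =>
    show T.src (ℓ i) = T.src (ℓ (i + ((0 : ℕ) : ℤ)))
    rw [Nat.cast_zero, add_zero]
  | succ n ih =>
    refine ⟨rfl, ?_⟩
    rw [h i]
    have h1 := ih (i + 1)
    have h2 : i + 1 + (n : ℤ) = i + ((n + 1 : ℕ) : ℤ) := by push_cast; ring
    rw [h2] at h1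
    exact h1

private theorem nrm_le (T : GTree G) {μ : T.V → FreeGroup T.E}
    (hμ : ∀ e, μ (T.t e) = μ (T.o e) * FreeGroup.of e) {v w : T.V} {L : List (T.E × Bool)}
    (h : T.W v L w) : ((μ v)⁻¹ * μ w).norm ≤ L.length := by
  have h1 := GTree.W_pot hμ h
  rw [FreeGroup.lift_of_apply] at h1
  rw [h1, inv_mul_cancel_left]
  exact FreeGroup.norm_mk_le

private theorem nrm_eq (T : GTree G) {μ : T.V → FreeGroup T.E}
    (hμ : ∀ e, μ (T.t e) = μ (T.o e) * FreeGroup.of e) {v w : T.V} {L : List (T.E × Bool)}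
    (h : T.W v L w) (hr : FreeGroup.IsReduced L) : ((μ v)⁻¹ * μ w).norm = L.length := by
  have h1 := GTree.W_pot hμ h
  rw [FreeGroup.lift_of_apply] at h1
  rw [h1, inv_mul_cancel_left]
  show (FreeGroup.mk L).toWord.length = _
  rw [FreeGroup.toWord_mk, hr.reduce_eq]

/-- a bound for the exponents of the roots of `x` -/
theorem root_bound (T : GTree G) (x : G) (hx : ¬ T.Ell x) :
    ∃ D : ℕ, ∀ (s : G) (q : ℕ), x = s ^ q → q ≤ D := by
  obtain ⟨μ, hμ⟩ := T.pot
  obtain ⟨v⟩ := T.ne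
  obtain ⟨L, hL⟩ := GTree.exists_W (T := T) v (x • v)
  refine ⟨L.length, fun s q hs => ?_⟩
  by_contra hlt
  push Not at hlt
  have hs' : ¬ T.Ell s := by
    rintro ⟨u, hu⟩
    refine hx ⟨u, ?_⟩
    rw [hs]
    clear hs hlt
    induction q with
    | zero => rw [pow_zero, one_smul]
    | succ k ih => rw [pow_succ, mul_smul, hu, ih]
  obtain ⟨m, ℓ, hm, h1, h2, h3⟩ := axis T s hs'
  obtain ⟨u, hu⟩ : ∃ u, u = T.src (ℓ 0) := ⟨_, rfl⟩
  obtain ⟨K, hK⟩ := GTree.exists_W (T := T) u v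
  obtain ⟨K', hK'⟩ := GTree.exists_W (T := T) v u
  -- powers of `s` along the axis
  have hax : ∀ k : ℕ, T.src (ℓ ((m * k : ℕ) : ℤ)) = s ^ k • u := by
    intro k
    induction k with
    | zero => rw [mul_zero, pow_zero, one_smul, hu]; rfl
    | succ k ih =>
      have h4 : ((m * (k + 1) : ℕ) : ℤ) = ((m * k : ℕ) : ℤ) + m := by push_cast; ring
      rw [h4, h1]
      have h5 : T.src (s • (ℓ ((m * k : ℕ) : ℤ)).1, (ℓ ((m * k : ℕ) : ℤ)).2) =
          s • T.src (ℓ ((m * k : ℕ) : ℤ)) := GTree.src_smul s _ _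
      rw [h5, ih, smul_smul, pow_succ']
  have hN : ∀ N : ℕ, m * (q * N) ≤ K.length + N * L.length + K'.length := by
    intro N
    have e1 : ((μ u)⁻¹ * μ (x ^ N • u)).norm = m * (q * N) := by
      have h4 := seg_W T ℓ h2 (m * (q * N)) 0
      rw [zero_add, hax, ← hu, pow_mul, ← hs] at h4
      rw [nrm_eq T hμ h4 (seg_red ℓ h3 _ _), seg_len]
    have e2 : ∀ n : ℕ, ((μ v)⁻¹ * μ (x ^ n • v)).norm ≤ n * L.length := by
      intro n
      induction n with
      | zero => rw [pow_zero, one_smul, inv_mul_cancel, FreeGroup.norm_one]; exact Nat.zero_le _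
      | succ n ih =>
        have h4 := GTree.W_smul (x ^ n) hL
        rw [smul_smul, ← pow_succ] at h4
        have h5 := nrm_le T hμ h4
        rw [List.length_map] at h5
        have h6 : (μ v)⁻¹ * μ (x ^ (n + 1) • v) =
            ((μ v)⁻¹ * μ (x ^ n • v)) * ((μ (x ^ n • v))⁻¹ * μ (x ^ (n + 1) • v)) := by group
        rw [h6]
        refine (FreeGroup.norm_mul_le _ _).trans ?_
        rw [Nat.add_mul, one_mul]
        exact Nat.add_le_add ih h5
    have e3 := nrm_le T hμ hK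
    have e4 := nrm_le T hμ (GTree.W_smul (x ^ N) hK')
    rw [List.length_map] at e4
    have h6 : (μ u)⁻¹ * μ (x ^ N • u) =
        ((μ u)⁻¹ * μ v) * ((μ v)⁻¹ * μ (x ^ N • v)) * ((μ (x ^ N • v))⁻¹ * μ (x ^ N • u)) := by
      group
    rw [← e1, h6]
    refine (FreeGroup.norm_mul_le _ _).trans ?_
    refine Nat.add_le_add ((FreeGroup.norm_mul_le _ _).trans ?_) e4
    exact Nat.add_le_add e3 (e2 N)
  have h4 := hN (K.length + K'.length + 1)
  have h5 : (L.length + 1) * (K.length + K'.length + 1) ≤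
      m * (q * (K.length + K'.length + 1)) := by
    rw [← mul_assoc]
    refine Nat.mul_le_mul_right _ ?_
    calc L.length + 1 ≤ q := hlt
      _ = 1 * q := (one_mul q).symm
      _ ≤ m * q := Nat.mul_le_mul_right _ hm
  have h6 : (L.length + 1) * (K.length + K'.length + 1) =
      (K.length + K'.length + 1) * L.length + (K.length + K'.length + 1) := by ring
  omega

/-- an element without fixed vertex has a root which is not a proper power -/
theorem exists_root_tree (T : GTree G) (x : G) (hx : ¬ T.Ell x) :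
    ∃ (s : G) (q : ℕ), 1 ≤ q ∧ x = s ^ q ∧ NPow s ∧ ¬ T.Ell s := by
  obtain ⟨D, hD⟩ := root_bound T x hx
  have hex : ∃ s : G, x = s ^ 1 := ⟨x, (pow_one x).symm⟩
  obtain ⟨q, ⟨s, hs⟩, hmax⟩ : ∃ q, (∃ s : G, x = s ^ q) ∧ ∀ q', (∃ s : G, x = s ^ q') → q' ≤ q := by
    have h := Nat.findGreatest_spec (P := fun q => ∃ s : G, x = s ^ q)
      (hD x 1 (pow_one x).symm) hex
    exact ⟨_, h, fun q' hq' => Nat.le_findGreatest (by obtain ⟨s, hs⟩ := hq'; exact hD s q' hs) hq'⟩
  have hq : 1 ≤ q := hmax 1 hex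
  refine ⟨s, q, hq, hs, fun u k hk huk => ?_, ?_⟩
  · have h1 := hmax (k * q) ⟨u, by rw [hs, huk, ← pow_mul]⟩
    nlinarith
  · rintro ⟨u, hu⟩
    refine hx ⟨u, ?_⟩
    rw [hs]
    clear hs hmax hq
    induction q with
    | zero => rw [pow_zero, one_smul]
    | succ k ih => rw [pow_succ, mul_smul, hu, ih]

end Pool.Agent.T3R
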