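import Pool.Agent.Lib.T3R.CharP
import Pool.Agent.Lib.T3R.Char3
import Pool.Agent.Lib.T3R.Root
import Pool.Agent.Lib.T3R.Prod
import Pool.Agent.Lib.MagH.Frei

/-!
# Two pure relators

(helper14, problem MP_6b13af_al)
-/

set_option autoImplicit false

open scoped Classical

namespace Pool.Agent.T3R

open FreeGroup
open Pool.Agent.LTree (NPow GTree)
open Pool.Agent.LOTI (LI LI_free)

/-- the free groups on `x, y` and on `z, t` -/
def iA : FreeGroup (Fin 2) →* F4 := FreeGroup.lift ![of 0, of 1]
def iB : FreeGroup (Fin 2) →* F4 := FreeGroup.lift ![of 2, of 3]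
/-- the retractions -/
def rA : F4 →* FreeGroup (Fin 2) := FreeGroup.lift ![of 0, of 1, 1, 1]
def rB : F4 →* FreeGroup (Fin 2) := FreeGroup.lift ![1, 1, of 0, of 1]

theorem rA_iA (w : FreeGroup (Fin 2)) : rA (iA w) = w := by
  have h : rA.comp iA = MonoidHom.id _ := by
    refine FreeGroup.ext_hom _ _ fun i => ?_
    show rA (iA (of i)) = of i
    rw [iA, FreeGroup.lift_apply_of]
    fin_cases i
    · show rA (of 0) = of 0
      rw [rA, FreeGroup.lift_apply_of]; rfl
    · show rA (of 1) = of 1
      rw [rA, FreeGroup.lift_apply_of]; rfl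
  exact DFunLike.congr_fun h w

theorem rB_iB (w : FreeGroup (Fin 2)) : rB (iB w) = w := by
  have h : rB.comp iB = MonoidHom.id _ := by
    refine FreeGroup.ext_hom _ _ fun i => ?_
    show rB (iB (of i)) = of i
    rw [iB, FreeGroup.lift_apply_of]
    fin_cases i
    · show rB (of 2) = of 0
      rw [rB, FreeGroup.lift_apply_of]; rfl
    · show rB (of 3) = of 1
      rw [rB, FreeGroup.lift_apply_of]; rfl
  exact DFunLike.congr_fun h w

theorem rB_iA (w : FreeGroup (Fin 2)) : rB (iA w) = 1 := by
  have h : rB.comp iA = 1 := by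
    refine FreeGroup.ext_hom _ _ fun i => ?_
    show rB (iA (of i)) = 1
    rw [iA, FreeGroup.lift_apply_of]
    fin_cases i
    · show rB (of 0) = 1
      rw [rB, FreeGroup.lift_apply_of]; rfl
    · show rB (of 1) = 1
      rw [rB, FreeGroup.lift_apply_of]; rfl
  exact DFunLike.congr_fun h w

theorem iA_mem (w : FreeGroup (Fin 2)) : iA w ∈ Subgroup.closure ({of 0, of 1} : Set F4) := by
  have h : (⊤ : Subgroup (FreeGroup (Fin 2))) ≤
      (Subgroup.closure ({of 0, of 1} : Set F4)).comap iA := by
    rw [← FreeGroup.closure_range_of, Subgroup.closure_le]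
    rintro _ ⟨i, rfl⟩
    show iA (of i) ∈ Subgroup.closure ({of 0, of 1} : Set F4)
    rw [iA, FreeGroup.lift_apply_of]
    fin_cases i
    · exact Subgroup.subset_closure (by simp)
    · exact Subgroup.subset_closure (by simp)
  exact h (Subgroup.mem_top w)

theorem iB_mem (w : FreeGroup (Fin 2)) : iB w ∈ Subgroup.closure ({of 2, of 3} : Set F4) := by
  have h : (⊤ : Subgroup (FreeGroup (Fin 2))) ≤
      (Subgroup.closure ({of 2, of 3} : Set F4)).comap iB := by
    rw [← FreeGroup.closure_range_of, Subgroup.closure_le]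
    rintro _ ⟨i, rfl⟩
    show iB (of i) ∈ Subgroup.closure ({of 2, of 3} : Set F4)
    rw [iB, FreeGroup.lift_apply_of]
    fin_cases i
    · exact Subgroup.subset_closure (by simp)
    · exact Subgroup.subset_closure (by simp)
  exact h (Subgroup.mem_top w)

theorem exists_iA (w : F4) (hw : w ∈ Subgroup.closure ({of 0, of 1} : Set F4)) :
    ∃ w', iA w' = w := by
  have h : Subgroup.closure ({of 0, of 1} : Set F4) ≤ iA.range := by
    rw [Subgroup.closure_le]
    rintro _ (rfl | rfl)
    · exact ⟨of 0, by rw [iA, FreeGroup.lift_apply_of]; rfl⟩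
    · exact ⟨of 1, by rw [iA, FreeGroup.lift_apply_of]; rfl⟩
  exact h hw

theorem exists_iB (w : F4) (hw : w ∈ Subgroup.closure ({of 2, of 3} : Set F4)) :
    ∃ w', iB w' = w := by
  have h : Subgroup.closure ({of 2, of 3} : Set F4) ≤ iB.range := by
    rw [Subgroup.closure_le]
    rintro _ (rfl | rfl)
    · exact ⟨of 0, by rw [iB, FreeGroup.lift_apply_of]; rfl⟩
    · exact ⟨of 1, by rw [iB, FreeGroup.lift_apply_of]; rfl⟩
  exact h hw

theorem npow_map {G H : Type} [Group G] [Group H] (f : G →* H) (s : G) (h : NPow (f s)) :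
    NPow s := by
  rintro v q hq rfl
  exact h (f v) q hq (map_pow f v q)

theorem npow_ne_one {G : Type} [Group G] (s : G) (h : NPow s) : s ≠ 1 := by
  rintro rfl
  exact h 1 2 le_rfl (one_pow 2).symm

/-- exponents of `x` modulo 3 -/
def chx : F4 →* Multiplicative (ZMod 3) :=
  FreeGroup.lift ![Multiplicative.ofAdd 1, 1, 1, 1]

theorem chx_RR : ∀ g ∈ RR, chx g = 1 := by
  intro g hg
  have h1 : RR ≤ chx.ker := by
    refine Subgroup.normalClosure_le_normal ?_
    rintro ρ (rfl | rfl | rfl | rfl)
    · show chx (of 0 ^ 3) = 1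
      rw [map_pow, chx, FreeGroup.lift_apply_of]
      exact (by decide : (Multiplicative.ofAdd (1 : ZMod 3)) ^ 3 = 1)
    · show chx (of 2 ^ 2) = 1
      rw [map_pow, chx, FreeGroup.lift_apply_of]
      exact one_pow 2
    · show chx cxy = 1
      rw [cxy, _root_.map_mul, _root_.map_mul, _root_.map_mul, _root_.map_inv, _root_.map_inv]
      have h2 : chx (of 1) = 1 := by rw [chx, FreeGroup.lift_apply_of]; rfl
      rw [h2]; group
    · show chx czt = 1
      rw [czt, _root_.map_mul, _root_.map_mul, _root_.map_mul, _root_.map_inv, _root_.map_inv]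
      have h2 : chx (of 3) = 1 := by rw [chx, FreeGroup.lift_apply_of]; rfl
      rw [h2]; group
  exact h1 hg

theorem x_not_mem : (of 0 : F4) ∉ RR := by
  intro h
  have h1 := chx_RR _ h
  rw [chx, FreeGroup.lift_apply_of] at h1
  exact absurd h1 (by decide)

theorem x_zpow (k : ℤ) (h : (of 0 : F4) ^ k ∈ RR) : (3 : ℤ) ∣ k := by
  have h1 := chx_RR _ h
  rw [map_zpow, chx, FreeGroup.lift_apply_of] at h1
  have h2 : ((k : ℤ) : ZMod 3) = 0 := by
    have h3 := congrArg Multiplicative.toAdd h1
    simpa using h3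
  exact (ZMod.intCast_zmod_eq_zero_iff_dvd k 3).1 h2

/-- a word in `x, y` in `RR` which is not a proper power is not conjugate to a word without `y` -/
theorem not_conj_omt (w' : FreeGroup (Fin 2)) (hn : NPow (iA w')) (hR : iA w' ∈ RR) (g : F4)
    (p : FreeGroup {i : Fin 4 // i ≠ 1}) : iA w' ≠ g * Pool.Agent.Lib.MagH.omt 1 p * g⁻¹ := by
  intro h
  -- the retraction to words in `x, y`
  have h1 : iA w' = iA (rA g) * iA (rA (Pool.Agent.Lib.MagH.omt 1 p)) * (iA (rA g))⁻¹ := by
    have h2 := congrArg (fun u => iA (rA u)) h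
    simp only [rA_iA, _root_.map_mul, _root_.map_inv] at h2
    exact h2
  have h2 : ∃ k : ℤ, iA (rA (Pool.Agent.Lib.MagH.omt 1 p)) = of 0 ^ k := by
    have h3 : (⊤ : Subgroup (FreeGroup {i : Fin 4 // i ≠ 1})) ≤
        (Subgroup.zpowers (of 0 : F4)).comap ((iA.comp rA).comp (Pool.Agent.Lib.MagH.omt 1)) := by
      rw [← FreeGroup.closure_range_of, Subgroup.closure_le]
      rintro _ ⟨⟨i, hi⟩, rfl⟩
      show iA (rA (Pool.Agent.Lib.MagH.omt 1 (of ⟨i, hi⟩))) ∈ Subgroup.zpowers (of 0 : F4)
      rw [Pool.Agent.Lib.MagH.omt, FreeGroup.map.of]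
      fin_cases i
      · show iA (rA (of 0)) ∈ _
        rw [rA, FreeGroup.lift_apply_of]
        show iA (of 0) ∈ _
        rw [iA, FreeGroup.lift_apply_of]
        exact Subgroup.mem_zpowers _
      · exact absurd rfl hi
      · show iA (rA (of 2)) ∈ _
        rw [rA, FreeGroup.lift_apply_of]
        show iA 1 ∈ _
        rw [_root_.map_one]
        exact Subgroup.one_mem _
      · show iA (rA (of 3)) ∈ _
        rw [rA, FreeGroup.lift_apply_of]
        show iA 1 ∈ _
        rw [_root_.map_one]
        exact Subgroup.one_mem _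
    obtain ⟨k, hk⟩ := Subgroup.mem_zpowers_iff.1 (h3 (Subgroup.mem_top p))
    exact ⟨k, hk.symm⟩
  obtain ⟨k, hk⟩ := h2
  rw [hk] at h1
  have h3 : (of 0 : F4) ^ k ∈ RR := by
    have h4 := Subgroup.Normal.conj_mem (inferInstance : RR.Normal) _ hR (iA (rA g))⁻¹
    rw [h1] at h4
    have h5 : (iA (rA g))⁻¹ * (iA (rA g) * of 0 ^ k * (iA (rA g))⁻¹) * (iA (rA g))⁻¹⁻¹ =
        (of 0 : F4) ^ k := by group
    rwa [h5] at h4
  obtain ⟨k', rfl⟩ := x_zpow k h3
  refine hn (iA (rA g) * of 0 ^ k' * (iA (rA g))⁻¹) 3 (by norm_num) ?_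
  rw [h1, conj_pow, mul_comm (3 : ℤ), zpow_mul]
  rfl

/-- `F / <<w>>` is locally indicable -/
theorem LI_one (w' : FreeGroup (Fin 2)) (hn : NPow (iA w')) (hR : iA w' ∈ RR) :
    LI (F4 ⧸ Subgroup.normalClosure ({iA w'} : Set F4)) := by
  obtain ⟨T, hT, h1, _⟩ := Pool.Agent.Lib.MagH.split_tree
    (Pool.Agent.Lib.MagH.freeSplit_omt (1 : Fin 4))
  refine (Pool.Agent.LTree.ft (LI_free _) T hT (iA w') ?_ hn).1
  rintro ⟨v, hv⟩
  obtain ⟨g, p, h2⟩ := h1 v _ hv
  exact not_conj_omt w' hn hR g p h2

section

variable (w' v' : FreeGroup (Fin 2))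

/-- the quotient by `w` -/
abbrev QB : Type := F4 ⧸ Subgroup.normalClosure ({iA w'} : Set F4)

/-- the factor -/
abbrev PA : Type := FreeGroup (Fin 2) ⧸ Subgroup.normalClosure ({w'} : Set (FreeGroup (Fin 2)))

/-- homomorphisms from a quotient by a normal closure -/
theorem exists_lift {G Y : Type} [Group G] [Group Y] (S : Set G) (f : G →* Y)
    (h : ∀ s ∈ S, f s = 1) : ∃ F : G ⧸ Subgroup.normalClosure S →* Y, ∀ g, F (QuotientGroup.mk g) = f g := by
  refine ⟨QuotientGroup.lift _ f ?_, fun g => rfl⟩
  intro g hg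
  have h1 : Subgroup.normalClosure S ≤ f.ker := Subgroup.normalClosure_le_normal h
  exact h1 hg

theorem freeSplitB : ∃ j : PA w' →* QB w', (∀ p, j (QuotientGroup.mk p) = QuotientGroup.mk (iA p)) ∧
    Pool.Agent.Lib.MagH.FreeSplit j
      (fun i : Fin 2 => (QuotientGroup.mk (iB (of i)) : QB w')) := by
  obtain ⟨j, hj⟩ := exists_lift ({w'} : Set (FreeGroup (Fin 2)))
    ((QuotientGroup.mk' (Subgroup.normalClosure ({iA w'} : Set F4))).comp iA) (by
      rintro _ rfl
      exact (QuotientGroup.eq_one_iff _).2 (Subgroup.subset_normalClosure rfl))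
  refine ⟨j, hj, ?_, ?_⟩
  · intro H h1 h2
    have h3 : (⊤ : Subgroup F4) ≤ H.comap (QuotientGroup.mk' _) := by
      rw [← FreeGroup.closure_range_of, Subgroup.closure_le]
      rintro _ ⟨i, rfl⟩
      show (QuotientGroup.mk (of i) : QB w') ∈ H
      fin_cases i
      · have h4 := h1 (QuotientGroup.mk (of 0))
        rw [hj] at h4
        have h5 : iA (of 0) = of 0 := by rw [iA, FreeGroup.lift_apply_of]; rfl
        exact h5 ▸ h4
      · have h4 := h1 (QuotientGroup.mk (of 1))
        rw [hj] at h4
        have h5 : iA (of 1) = of 1 := by rw [iA, FreeGroup.lift_apply_of]; rfl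
        exact h5 ▸ h4
      · have h5 : iB (of 0) = of 2 := by rw [iB, FreeGroup.lift_apply_of]; rfl
        exact h5 ▸ h2 0
      · have h5 : iB (of 1) = of 3 := by rw [iB, FreeGroup.lift_apply_of]; rfl
        exact h5 ▸ h2 1
    rw [eq_top_iff]
    intro g _
    obtain ⟨g', rfl⟩ := QuotientGroup.mk_surjective g
    exact h3 (Subgroup.mem_top g')
  · intro Y _ f u
    have hF : ∀ p, (FreeGroup.lift ![f (QuotientGroup.mk (of 0)), f (QuotientGroup.mk (of 1)),
        u 0, u 1] : F4 →* Y) (iA p) = f (QuotientGroup.mk p) := by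
      intro p
      have h : (FreeGroup.lift ![f (QuotientGroup.mk (of 0)), f (QuotientGroup.mk (of 1)),
          u 0, u 1] : F4 →* Y).comp iA = f.comp (QuotientGroup.mk' _) := by
        refine FreeGroup.ext_hom _ _ fun i => ?_
        show (FreeGroup.lift _ : F4 →* Y) (iA (of i)) = f (QuotientGroup.mk (of i))
        rw [iA, FreeGroup.lift_apply_of]
        fin_cases i
        · show (FreeGroup.lift _ : F4 →* Y) (of 0) = _
          rw [FreeGroup.lift_apply_of]; rfl
        · show (FreeGroup.lift _ : F4 →* Y) (of 1) = _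
          rw [FreeGroup.lift_apply_of]; rfl
      exact DFunLike.congr_fun h p
    obtain ⟨F, hF2⟩ := exists_lift ({iA w'} : Set F4) (FreeGroup.lift
      ![f (QuotientGroup.mk (of 0)), f (QuotientGroup.mk (of 1)), u 0, u 1]) (by
        rintro _ rfl
        rw [hF]
        have h1 : (QuotientGroup.mk w' : PA w') = 1 :=
          (QuotientGroup.eq_one_iff _).2 (Subgroup.subset_normalClosure rfl)
        rw [h1, _root_.map_one])
    refine ⟨F, ?_, ?_⟩
    · intro p
      obtain ⟨p', rfl⟩ := QuotientGroup.mk_surjective p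
      rw [hj]
      show F (QuotientGroup.mk (iA p')) = _
      rw [hF2, hF]
    · intro i
      rw [hF2, iB, FreeGroup.lift_apply_of]
      fin_cases i
      · show (FreeGroup.lift _ : F4 →* Y) (of 2) = _
        rw [FreeGroup.lift_apply_of]; rfl
      · show (FreeGroup.lift _ : F4 →* Y) (of 3) = _
        rw [FreeGroup.lift_apply_of]; rfl

/-- the factor of `v` -/
abbrev PB : Type := FreeGroup (Fin 2) ⧸ Subgroup.normalClosure ({v'} : Set (FreeGroup (Fin 2)))

/-- the quotient by `w` and `v` -/
abbrev QA : Type := F4 ⧸ Subgroup.normalClosure ({iA w', iB v'} : Set F4)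

/-- `F / <<w, v>>` is locally indicable -/
theorem LI_two (hn : NPow (iA w')) (hR : iA w' ∈ RR) (hn2 : NPow (iB v')) : LI (QA w' v') := by
  have hB := LI_one w' hn hR
  obtain ⟨j, hj, hs⟩ := freeSplitB w'
  obtain ⟨T, hT, h1, _⟩ := Pool.Agent.Lib.MagH.split_tree hs
  -- the retraction of `F / <<w>>` to the words in `z, t`
  obtain ⟨κ, hκ⟩ := exists_lift ({iA w'} : Set F4) rB (by
    rintro _ rfl
    exact rB_iA w')
  have hκv : κ (QuotientGroup.mk (iB v')) = v' := by rw [hκ, rB_iB]
  have hell : ¬ T.Ell (QuotientGroup.mk (iB v') : QB w') := by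
    rintro ⟨u, hu⟩
    obtain ⟨g, p, h2⟩ := h1 u _ hu
    obtain ⟨p', rfl⟩ := QuotientGroup.mk_surjective p
    rw [hj] at h2
    have h3 := congrArg κ h2
    rw [hκv, _root_.map_mul, _root_.map_mul, _root_.map_inv, hκ, rB_iA, mul_one,
      mul_inv_cancel] at h3
    refine npow_ne_one _ hn2 ?_
    rw [h3, _root_.map_one]
  have hnp : NPow (QuotientGroup.mk (iB v') : QB w') := by
    refine npow_map κ _ ?_
    rw [hκv]
    exact npow_map iB _ hn2
  have hLI := (Pool.Agent.LTree.ft hB T hT _ hell hnp).1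
  -- the comparison of the two quotients
  obtain ⟨φ, hφ⟩ := exists_lift ({iA w', iB v'} : Set F4)
    ((QuotientGroup.mk' (Subgroup.normalClosure
      ({(QuotientGroup.mk (iB v') : QB w')} : Set (QB w')))).comp
      (QuotientGroup.mk' (Subgroup.normalClosure ({iA w'} : Set F4)))) (by
      rintro _ (rfl | rfl)
      · show (QuotientGroup.mk (QuotientGroup.mk (iA w') : QB w') : QB w' ⧸ _) = 1
        have h2 : (QuotientGroup.mk (iA w') : QB w') = 1 :=
          (QuotientGroup.eq_one_iff _).2 (Subgroup.subset_normalClosure rfl)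
        rw [h2]
        rfl
      · exact (QuotientGroup.eq_one_iff _).2 (Subgroup.subset_normalClosure rfl))
  refine LI.of_injective φ ?_ hLI
  rw [injective_iff_map_eq_one]
  intro g hg
  obtain ⟨g', rfl⟩ := QuotientGroup.mk_surjective g
  rw [hφ] at hg
  have h2 : (QuotientGroup.mk g' : QB w') ∈ Subgroup.normalClosure
      ({(QuotientGroup.mk (iB v') : QB w')} : Set (QB w')) := (QuotientGroup.eq_one_iff _).1 hg
  obtain ⟨ψ, hψ⟩ := exists_lift ({iA w'} : Set F4)
    (QuotientGroup.mk' (Subgroup.normalClosure ({iA w', iB v'} : Set F4))) (by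
      rintro _ rfl
      exact (QuotientGroup.eq_one_iff _).2 (Subgroup.subset_normalClosure (by simp)))
  have h3 : Subgroup.normalClosure ({(QuotientGroup.mk (iB v') : QB w')} : Set (QB w')) ≤
      ψ.ker := by
    refine Subgroup.normalClosure_le_normal ?_
    rintro _ rfl
    show ψ (QuotientGroup.mk (iB v')) = 1
    rw [hψ]
    exact (QuotientGroup.eq_one_iff _).2 (Subgroup.subset_normalClosure (by simp))
  have h4 := h3 h2
  rw [MonoidHom.mem_ker, hψ] at h4
  exact h4

theorem freeProdA : ∃ (j : PA w' →* QA w' v') (k : PB v' →* QA w' v'),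
    (∀ p, j (QuotientGroup.mk p) = QuotientGroup.mk (iA p)) ∧
    (∀ p, k (QuotientGroup.mk p) = QuotientGroup.mk (iB p)) ∧ FreeProd j k := by
  obtain ⟨j, hj⟩ := exists_lift ({w'} : Set (FreeGroup (Fin 2)))
    ((QuotientGroup.mk' (Subgroup.normalClosure ({iA w', iB v'} : Set F4))).comp iA) (by
      rintro _ rfl
      exact (QuotientGroup.eq_one_iff _).2 (Subgroup.subset_normalClosure (by simp)))
  obtain ⟨k, hk⟩ := exists_lift ({v'} : Set (FreeGroup (Fin 2)))
    ((QuotientGroup.mk' (Subgroup.normalClosure ({iA w', iB v'} : Set F4))).comp iB) (by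
      rintro _ rfl
      exact (QuotientGroup.eq_one_iff _).2 (Subgroup.subset_normalClosure (by simp)))
  refine ⟨j, k, hj, hk, ?_, ?_⟩
  · intro H h1 h2
    have h3 : (⊤ : Subgroup F4) ≤ H.comap (QuotientGroup.mk' _) := by
      rw [← FreeGroup.closure_range_of, Subgroup.closure_le]
      rintro _ ⟨i, rfl⟩
      show (QuotientGroup.mk (of i) : QA w' v') ∈ H
      fin_cases i
      · have h4 := h1 (QuotientGroup.mk (of 0))
        rw [hj] at h4
        have h5 : iA (of 0) = of 0 := by rw [iA, FreeGroup.lift_apply_of]; rfl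
        exact h5 ▸ h4
      · have h4 := h1 (QuotientGroup.mk (of 1))
        rw [hj] at h4
        have h5 : iA (of 1) = of 1 := by rw [iA, FreeGroup.lift_apply_of]; rfl
        exact h5 ▸ h4
      · have h4 := h2 (QuotientGroup.mk (of 0))
        rw [hk] at h4
        have h5 : iB (of 0) = of 2 := by rw [iB, FreeGroup.lift_apply_of]; rfl
        exact h5 ▸ h4
      · have h4 := h2 (QuotientGroup.mk (of 1))
        rw [hk] at h4
        have h5 : iB (of 1) = of 3 := by rw [iB, FreeGroup.lift_apply_of]; rfl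
        exact h5 ▸ h4
    rw [eq_top_iff]
    intro g _
    obtain ⟨g', rfl⟩ := QuotientGroup.mk_surjective g
    exact h3 (Subgroup.mem_top g')
  · intro Y _ f u
    obtain ⟨L, hL⟩ : ∃ L : F4 →* Y, L = FreeGroup.lift ![f (QuotientGroup.mk (of 0)),
      f (QuotientGroup.mk (of 1)), u (QuotientGroup.mk (of 0)), u (QuotientGroup.mk (of 1))] :=
      ⟨_, rfl⟩
    have hF : ∀ p, L (iA p) = f (QuotientGroup.mk p) := by
      intro p
      have h : L.comp iA = f.comp (QuotientGroup.mk' _) := by
        refine FreeGroup.ext_hom _ _ fun i => ?_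
        show L (iA (of i)) = f (QuotientGroup.mk (of i))
        rw [iA, FreeGroup.lift_apply_of, hL]
        fin_cases i
        · show (FreeGroup.lift _ : F4 →* Y) (of 0) = _
          rw [FreeGroup.lift_apply_of]; rfl
        · show (FreeGroup.lift _ : F4 →* Y) (of 1) = _
          rw [FreeGroup.lift_apply_of]; rfl
      exact DFunLike.congr_fun h p
    have hF' : ∀ p, L (iB p) = u (QuotientGroup.mk p) := by
      intro p
      have h : L.comp iB = u.comp (QuotientGroup.mk' _) := by
        refine FreeGroup.ext_hom _ _ fun i => ?_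
        show L (iB (of i)) = u (QuotientGroup.mk (of i))
        rw [iB, FreeGroup.lift_apply_of, hL]
        fin_cases i
        · show (FreeGroup.lift _ : F4 →* Y) (of 2) = _
          rw [FreeGroup.lift_apply_of]; rfl
        · show (FreeGroup.lift _ : F4 →* Y) (of 3) = _
          rw [FreeGroup.lift_apply_of]; rfl
      exact DFunLike.congr_fun h p
    obtain ⟨F, hF2⟩ := exists_lift ({iA w', iB v'} : Set F4) L (by
        rintro _ (rfl | rfl)
        · rw [hF]
          have h1 : (QuotientGroup.mk w' : PA w') = 1 :=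
            (QuotientGroup.eq_one_iff _).2 (Subgroup.subset_normalClosure rfl)
          rw [h1, _root_.map_one]
        · rw [hF']
          have h1 : (QuotientGroup.mk v' : PB v') = 1 :=
            (QuotientGroup.eq_one_iff _).2 (Subgroup.subset_normalClosure rfl)
          rw [h1, _root_.map_one])
    refine ⟨F, ?_, ?_⟩
    · intro p
      obtain ⟨p', rfl⟩ := QuotientGroup.mk_surjective p
      rw [hj]
      show F (QuotientGroup.mk (iA p')) = _
      rw [hF2, hF]
    · intro p
      obtain ⟨p', rfl⟩ := QuotientGroup.mk_surjective p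
      rw [hk]
      show F (QuotientGroup.mk (iB p')) = _
      rw [hF2, hF']

/-- the case where the two pure relators are not proper powers -/
theorem core (hn : NPow (iA w')) (hR : iA w' ∈ RR) (hn2 : NPow (iB v')) (hR2 : iB v' ∈ RR)
    (c : F4) (h : Subgroup.normalClosure ({iA w', iB v', c} : Set F4) = RR) : False := by
  have hLI := LI_two w' v' hn hR hn2
  obtain ⟨j, k, hj, hk, hP⟩ := freeProdA w' v'
  obtain ⟨T, hT, h1, v₀, hv₀⟩ := prod_tree hP
  have hN : Subgroup.normalClosure ({iA w', iB v'} : Set F4) ≤ RR := by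
    refine Subgroup.normalClosure_le_normal ?_
    rintro _ (rfl | rfl)
    · exact hR
    · exact hR2
  have hcR : c ∈ RR := by
    rw [← h]
    exact Subgroup.subset_normalClosure (by simp)
  have conj_RR : ∀ (g : QA w' v') (p : F4),
      (QuotientGroup.mk c : QA w' v') = g * QuotientGroup.mk p * g⁻¹ →
      p ∈ RR ∧ ∀ N : Subgroup F4, N.Normal → iA w' ∈ N → iB v' ∈ N → p ∈ N → c ∈ N := by
    intro g p hg
    obtain ⟨g', rfl⟩ := QuotientGroup.mk_surjective g
    have h2 : (QuotientGroup.mk c : QA w' v') = QuotientGroup.mk (g' * p * g'⁻¹) := hg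
    have h3 := QuotientGroup.eq.1 h2
    constructor
    · have h4 : g' * p * g'⁻¹ ∈ RR := by
        have h5 := Subgroup.mul_mem _ hcR (hN h3)
        rwa [mul_inv_cancel_left] at h5
      have h5 := Subgroup.Normal.conj_mem (inferInstance : RR.Normal) _ h4 g'⁻¹
      have h6 : g'⁻¹ * (g' * p * g'⁻¹) * g'⁻¹⁻¹ = p := by group
      rwa [h6] at h5
    · intro N hNn hw hv hp
      have h4 : c⁻¹ * (g' * p * g'⁻¹) ∈ N := by
        have h5 : Subgroup.normalClosure ({iA w', iB v'} : Set F4) ≤ N := by
          refine Subgroup.normalClosure_le_normal ?_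
          rintro _ (rfl | rfl)
          · exact hw
          · exact hv
        exact h5 h3
      have h5 := hNn.conj_mem _ hp g'
      have h6 := Subgroup.mul_mem _ h5 (Subgroup.inv_mem _ h4)
      have h7 : g' * p * g'⁻¹ * (c⁻¹ * (g' * p * g'⁻¹))⁻¹ = c := by group
      rwa [h7] at h6
  have repl : ∀ (g : QA w' v') (p : F4),
      (QuotientGroup.mk c : QA w' v') = g * QuotientGroup.mk p * g⁻¹ →
      Subgroup.normalClosure ({iA w', iB v', p} : Set F4) = RR := by
    intro g p hg
    obtain ⟨h2, h3⟩ := conj_RR g p hg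
    apply le_antisymm
    · refine Subgroup.normalClosure_le_normal ?_
      rintro _ (rfl | rfl | rfl)
      · exact hR
      · exact hR2
      · exact h2
    · rw [← h]
      refine Subgroup.normalClosure_le_normal ?_
      rintro _ (rfl | rfl | rfl)
      · exact Subgroup.subset_normalClosure (by simp)
      · exact Subgroup.subset_normalClosure (by simp)
      · exact h3 _ Subgroup.normalClosure_normal (Subgroup.subset_normalClosure (by simp))
          (Subgroup.subset_normalClosure (by simp)) (Subgroup.subset_normalClosure (by simp))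
  by_cases hell : T.Ell (QuotientGroup.mk c : QA w' v')
  · obtain ⟨u, hu⟩ := hell
    rcases h1 u _ hu with ⟨g, p, h2⟩ | ⟨g, p, h2⟩
    · obtain ⟨p', rfl⟩ := QuotientGroup.mk_surjective p
      rw [hj] at h2
      have h3 := repl g (iA p') h2
      have h4 : ({iA w', iB v', iA p'} : Set F4) = {iA w', iA p', iB v'} := by
        rw [Set.pair_comm (iB v')]
      rw [h4] at h3
      exact two_xy _ _ _ (iA_mem w') (iA_mem p') h3
    · obtain ⟨p', rfl⟩ := QuotientGroup.mk_surjective p
      rw [hk] at h2
      have h3 := repl g (iB p') h2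
      have h4 : ({iA w', iB v', iB p'} : Set F4) = {iB v', iB p', iA w'} := by
        rw [Set.insert_comm, Set.pair_comm (iA w')]
      rw [h4] at h3
      exact two_zt _ _ _ (iB_mem v') (iB_mem p') h3
  · obtain ⟨s, q, hq, hs, hsn, hse⟩ := exists_root_tree T _ hell
    have h2 := (Pool.Agent.LTree.ft hLI T hT s hse hsn).2 v₀
      (QuotientGroup.mk (of 0 ^ 3)) ?_ ?_
    · have h3 : (QuotientGroup.mk (of 0) : QA w' v') ^ 3 = 1 := h2
      have h4 := Pool.Agent.LTree.torsion_free hLI _ 3 (by norm_num) h3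
      exact x_not_mem (hN ((QuotientGroup.eq_one_iff _).1 h4))
    · have h3 := hv₀ (QuotientGroup.mk (of 0 ^ 3))
      rw [hj] at h3
      have h5 : iA (of 0 ^ 3) = of 0 ^ 3 := by
        rw [map_pow, iA, FreeGroup.lift_apply_of]; rfl
      rw [← h5]
      exact h3
    · have h3 : RR ≤ (Subgroup.normalClosure ({s} : Set (QA w' v'))).comap
          (QuotientGroup.mk' _) := by
        rw [← h]
        refine Subgroup.normalClosure_le_normal ?_
        intro a ha
        show (QuotientGroup.mk a : QA w' v') ∈ Subgroup.normalClosure ({s} : Set (QA w' v'))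
        rcases ha with ha | ha | ha
        · have h4 : (QuotientGroup.mk a : QA w' v') = 1 :=
            (QuotientGroup.eq_one_iff _).2 (Subgroup.subset_normalClosure (by rw [ha]; simp))
          rw [h4]
          exact Subgroup.one_mem _
        · have h4 : (QuotientGroup.mk a : QA w' v') = 1 :=
            (QuotientGroup.eq_one_iff _).2 (Subgroup.subset_normalClosure (by rw [ha]; simp))
          rw [h4]
          exact Subgroup.one_mem _
        · have ha' : a = c := ha
          have h5 : s ∈ Subgroup.normalClosure ({s} : Set (QA w' v')) :=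
            Subgroup.subset_normalClosure (Set.mem_singleton s)
          have h6 := Subgroup.pow_mem _ h5 q
          rw [← hs] at h6
          rw [ha']
          exact h6
      exact h3 x3_mem

end

/-- the reduction to the case without proper powers -/
theorem pure_pair (a b c : F4) (ha : a ∈ Subgroup.closure ({of 0, of 1} : Set F4))
    (hb : b ∈ Subgroup.closure ({of 2, of 3} : Set F4)) :
    Subgroup.normalClosure ({a, b, c} : Set F4) ≠ RR := by
  intro h
  obtain ⟨a', rfl⟩ := exists_iA a ha
  obtain ⟨b', rfl⟩ := exists_iB b hb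
  have hba : ({iA a', iB b', c} : Set F4) = {iB b', iA a', c} := Set.insert_comm _ _ _
  by_cases ha1 : a' = 1
  · subst ha1
    rw [_root_.map_one, Set.insert_comm] at h
    exact two_zt _ _ _ (iB_mem b') (Subgroup.one_mem _) h
  by_cases hb1 : b' = 1
  · subst hb1
    rw [_root_.map_one] at h
    exact two_xy _ _ _ (iA_mem a') (Subgroup.one_mem _) h
  obtain ⟨w', m, hm, hw, hwn⟩ := Pool.Agent.Lib.MagH.exists_root a' ha1
  obtain ⟨v', k, hk, hv, hvn⟩ := Pool.Agent.Lib.MagH.exists_root b' hb1
  have hwn' : NPow (iA w') := npow_map rA _ (by rw [rA_iA]; exact hwn)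
  have hvn' : NPow (iB v') := npow_map rB _ (by rw [rB_iB]; exact hvn)
  have e1 : iA a' = iA w' ^ m := by rw [hw, map_pow]
  have e2 : iB b' = iB v' ^ k := by rw [hv, map_pow]
  have hwR : iA w' ∈ RR := by
    refine pow_xy _ (iA_mem w') m hm (iB b') c ?_
    rw [← e1]
    exact h
  have hvR : iB v' ∈ RR := by
    refine pow_zt _ (iB_mem v') k hk (iA a') c ?_
    rw [← e2, ← hba]
    exact h
  refine core w' v' hwn' hwR hvn' hvR c ?_
  apply le_antisymm
  · refine Subgroup.normalClosure_le_normal ?_
    intro g hg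
    rcases hg with hg | hg | hg
    · rw [hg]; exact hwR
    · rw [hg]; exact hvR
    · have hg' : g = c := hg
      rw [hg', ← h]
      exact Subgroup.subset_normalClosure (by simp)
  · rw [← h]
    refine Subgroup.normalClosure_le_normal ?_
    intro g hg
    rcases hg with hg | hg | hg
    · rw [hg, e1]
      exact Subgroup.pow_mem _ (Subgroup.subset_normalClosure (by simp)) m
    · rw [hg, e2]
      exact Subgroup.pow_mem _ (Subgroup.subset_normalClosure (by simp)) k
    · have hg' : g = c := hg
      rw [hg']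
      exact Subgroup.subset_normalClosure (by simp)

end Pool.Agent.T3R
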