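import Pool.Agent.Lib.T3R.Core2

/-!
# Permutations of the letters, and the theorem for a general pair of sets of letters

(helper14, problem MP_6b13af_al)
-/

set_option autoImplicit false

open scoped Classical

namespace Pool.Agent.T3R

open FreeGroup

/-- a permutation of the letters -/
def pm (σ : Equiv.Perm (Fin 4)) : F4 →* F4 := FreeGroup.map σ

theorem pm_of (σ : Equiv.Perm (Fin 4)) (i : Fin 4) : pm σ (of i) = of (σ i) := FreeGroup.map.of

theorem pm_pm (σ : Equiv.Perm (Fin 4)) (g : F4) : pm σ (pm σ.symm g) = g := by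
  have h : (pm σ).comp (pm σ.symm) = MonoidHom.id _ := by
    refine FreeGroup.ext_hom _ _ fun i => ?_
    show pm σ (pm σ.symm (of i)) = of i
    rw [pm_of, pm_of, Equiv.apply_symm_apply]
  exact DFunLike.congr_fun h g

theorem pm_surj (σ : Equiv.Perm (Fin 4)) : Function.Surjective (pm σ) :=
  fun g => ⟨pm σ.symm g, pm_pm σ g⟩

theorem pm_inj (σ : Equiv.Perm (Fin 4)) : Function.Injective (pm σ) := by
  intro g h hgh
  have h1 := pm_pm σ.symm g
  have h2 := pm_pm σ.symm h
  rw [Equiv.symm_symm] at h1 h2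
  rw [← h1, ← h2, hgh]

theorem pm_wd (σ : Equiv.Perm (Fin 4)) (S T : Set (Fin 4)) (hST : ∀ i ∈ S, σ i ∈ T) (g : F4)
    (hg : g ∈ Wd S) : pm σ g ∈ Wd T := by
  refine wd_map (pm σ) S (Wd T) (fun i hi => ?_) g hg
  rw [pm_of, Wd]
  exact Subgroup.subset_closure ⟨σ i, hST i hi, rfl⟩

theorem pm_nc (σ : Equiv.Perm (Fin 4)) (N : Subgroup F4) (a b c : F4)
    (h : Subgroup.normalClosure ({a, b, c} : Set F4) = N.comap (pm σ)) :
    Subgroup.normalClosure ({pm σ a, pm σ b, pm σ c} : Set F4) = N := by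
  have h1 := congrArg (Subgroup.map (pm σ)) h
  rw [Subgroup.map_comap_eq_self_of_surjective (pm_surj σ),
    Subgroup.map_normalClosure _ _ (pm_surj σ), Set.image_insert_eq, Set.image_pair] at h1
  exact h1

theorem pm_nc' (σ : Equiv.Perm (Fin 4)) (N : Subgroup F4) (a b c : F4)
    (h : Subgroup.normalClosure ({pm σ a, pm σ b, pm σ c} : Set F4) = N) :
    Subgroup.normalClosure ({a, b, c} : Set F4) = N.comap (pm σ) := by
  have h1 : (pm σ '' ({a, b, c} : Set F4)) = {pm σ a, pm σ b, pm σ c} := by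
    rw [Set.image_insert_eq, Set.image_pair]
  rw [← h, ← h1, ← Subgroup.map_normalClosure _ _ (pm_surj σ),
    Subgroup.comap_map_eq_self_of_injective (pm_inj σ)]

theorem Gd.perm {N : Subgroup F4} (hN : Gd N) (σ : Equiv.Perm (Fin 4)) :
    Gd (N.comap (pm σ)) where
  nor := hN.nor.comap _
  gen i h := by
    have h1 : pm σ (of i) ∈ N := h
    rw [pm_of] at h1
    exact hN.gen _ h1
  pow s m hm b c h := by
    have h1 := pm_nc σ N _ _ _ h
    rw [map_pow] at h1
    exact hN.pow _ m hm _ _ h1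
  two i j hij a b c ha hb h := by
    have h1 := pm_nc σ N _ _ _ h
    refine hN.two (σ i) (σ j) (fun h => hij (σ.injective h)) _ _ _ ?_ ?_ h1
    · refine pm_wd σ _ _ ?_ a ha
      rintro k (rfl | hk)
      · exact Or.inl rfl
      · exact Or.inr (congrArg σ hk)
    · refine pm_wd σ _ _ ?_ b hb
      rintro k (rfl | hk)
      · exact Or.inl rfl
      · exact Or.inr (congrArg σ hk)
  omt p a b c ha hb hc h := by
    have h1 := pm_nc σ N _ _ _ h
    have h2 : ∀ i ∈ {i | i ≠ p}, σ i ∈ {i | i ≠ σ p} := by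
      intro i hi h
      exact hi (σ.injective h)
    exact hN.omt (σ p) _ _ _ (pm_wd σ _ _ h2 a ha) (pm_wd σ _ _ h2 b hb)
      (pm_wd σ _ _ h2 c hc) h1
  tor := by
    obtain ⟨g, hg, n, hn, hgn⟩ := hN.tor
    obtain ⟨g', rfl⟩ := pm_surj σ g
    refine ⟨g', hg, n, hn, ?_⟩
    show pm σ (g' ^ n) ∈ N
    rw [map_pow]
    exact hgn

theorem perm_exists : ∀ i j p : Fin 4, i ≠ j → p ≠ i → p ≠ j →
    ∃ σ : Equiv.Perm (Fin 4), σ 0 = i ∧ σ 1 = j ∧ σ 3 = p := by decide

theorem exists_other : ∀ i j : Fin 3, i ≠ j → ∃ k : Fin 3, ∀ l : Fin 3, l = i ∨ l = j ∨ l = k := by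
  decide

theorem exists_third : ∀ i j : Fin 4, ∃ p : Fin 4, p ≠ i ∧ p ≠ j := by decide

/-- a relator in one letter -/
theorem Gd.single {N : Subgroup F4} (hN : Gd N) (i : Fin 4) (a b c : F4)
    (ha : a ∈ Wd {i}) : Subgroup.normalClosure ({a, b, c} : Set F4) ≠ N := by
  intro h
  have h1 : a ∈ Subgroup.zpowers (of i : F4) := by
    rw [Wd, Set.image_singleton] at ha
    rwa [Subgroup.zpowers_eq_closure]
  obtain ⟨k, rfl⟩ := Subgroup.mem_zpowers_iff.1 h1
  rcases lt_trichotomy k 0 with hk | hk | hk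
  · have h2 : (of i : F4) ^ k = (of i)⁻¹ ^ (-k).toNat := by
      rw [← zpow_natCast, Int.toNat_of_nonneg (by omega), inv_zpow', neg_neg]
    rw [h2] at h
    have h3 := hN.pow _ _ (by omega) _ _ h
    exact hN.gen i ((Subgroup.inv_mem_iff _).1 h3)
  · rw [hk, zpow_zero] at h
    exact hN.one _ _ h
  · have h2 : (of i : F4) ^ k = (of i) ^ k.toNat := by
      rw [← zpow_natCast, Int.toNat_of_nonneg (by omega)]
    rw [h2] at h
    exact hN.gen i (hN.pow _ _ (by omega) _ _ h)

theorem wd_mono {S T : Set (Fin 4)} (h : S ⊆ T) : Wd S ≤ Wd T :=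
  Subgroup.closure_mono (Set.image_mono h)

theorem main {N : Subgroup F4} (hN : Gd N) (A B : Finset (Fin 4)) (hA : A.card ≤ 2)
    (hAB : A.card < 2 ∨ A ∪ B ≠ Finset.univ ∨ Disjoint A B) (a b c : F4) (ha : a ∈ Wd A)
    (hb : b ∈ Wd B) : Subgroup.normalClosure ({a, b, c} : Set F4) ≠ N := by
  intro h
  rcases Nat.lt_or_ge A.card 2 with hA1 | hA2
  · obtain ⟨i, hi⟩ := Finset.card_le_one_iff_subset_singleton.1 (Nat.le_of_lt_succ hA1)
    refine hN.single i a b c (wd_mono ?_ ha) h
    intro k hk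
    exact Finset.mem_singleton.1 (hi hk)
  · replace hAB := hAB.resolve_left (not_lt.2 hA2)
    obtain ⟨i, j, hij, rfl⟩ := Finset.card_eq_two.1 (le_antisymm hA hA2)
    by_cases hu : ({i, j} : Finset (Fin 4)) ∪ B = Finset.univ
    · -- the disjoint case
      have hd : Disjoint ({i, j} : Finset (Fin 4)) B := hAB.resolve_left (fun h => h hu)
      obtain ⟨p, hpi, hpj⟩ := exists_third i j
      obtain ⟨σ, h0, h1, h3⟩ := perm_exists i j p hij hpi hpj
      have hba : ∀ k ∈ (B : Set (Fin 4)), σ.symm k ∈ ({2, 3} : Set (Fin 4)) := by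
        intro k hk
        have hk' : k ∈ B := hk
        have h4 : k ∉ ({i, j} : Finset (Fin 4)) := fun h5 => (Finset.disjoint_left.1 hd h5) hk'
        obtain ⟨l, rfl⟩ := σ.surjective k
        rw [Equiv.symm_apply_apply]
        fin_cases l
        · exact absurd (by rw [← h0]; exact Finset.mem_insert_self _ _) h4
        · exact absurd (by
            rw [← h1]; exact Finset.mem_insert_of_mem (Finset.mem_singleton_self _)) h4
        · exact Or.inl rfl
        · exact Or.inr rfl
      have haa : ∀ k ∈ ((({i, j} : Finset (Fin 4)) : Finset (Fin 4)) : Set (Fin 4)),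
          σ.symm k ∈ ({0, 1} : Set (Fin 4)) := by
        intro k hk
        rcases Finset.mem_insert.1 hk with rfl | hk
        · left
          rw [Equiv.symm_apply_eq, h0]
        · right
          have hk' := Finset.mem_singleton.1 hk
          show σ.symm k = 1
          rw [Equiv.symm_apply_eq, h1, hk']
      have ha1 := pm_wd σ.symm _ _ haa a ha
      have hb1 := pm_wd σ.symm _ _ hba b hb
      rw [Wd, Set.image_pair] at ha1 hb1
      obtain ⟨a', ha'⟩ := exists_iA _ ha1
      obtain ⟨b', hb'⟩ := exists_iB _ hb1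
      refine disj (hN.perm σ) a' b' (pm σ.symm c) (pm_nc' σ N _ _ _ ?_)
      rw [ha', hb', pm_pm, pm_pm, pm_pm]
      exact h
    · -- the case of a letter that does not occur
      obtain ⟨p, hp⟩ : ∃ p, p ∉ ({i, j} : Finset (Fin 4)) ∪ B := by
        by_contra hne
        push Not at hne
        exact hu (Finset.eq_univ_of_forall hne)
      rw [Finset.mem_union, not_or] at hp
      obtain ⟨hp1, hpB⟩ := hp
      have hpi : p ≠ i := by
        rintro rfl
        exact hp1 (Finset.mem_insert_self _ _)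
      have hpj : p ≠ j := by
        rintro rfl
        exact hp1 (Finset.mem_insert_of_mem (Finset.mem_singleton_self _))
      obtain ⟨σ, h0, h1, h3⟩ := perm_exists i j p hij hpi hpj
      have hba : ∀ k ∈ (B : Set (Fin 4)), σ.symm k ∈ {i : Fin 4 | i ≠ 3} := by
        intro k hk hk3
        rw [Equiv.symm_apply_eq, h3] at hk3
        rw [hk3] at hk
        exact hpB hk
      have haa : ∀ k ∈ ((({i, j} : Finset (Fin 4)) : Finset (Fin 4)) : Set (Fin 4)),
          σ.symm k ∈ ({0, 1} : Set (Fin 4)) := by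
        intro k hk
        rcases Finset.mem_insert.1 hk with rfl | hk
        · left
          rw [Equiv.symm_apply_eq, h0]
        · right
          have hk' := Finset.mem_singleton.1 hk
          show σ.symm k = 1
          rw [Equiv.symm_apply_eq, h1, hk']
      have ha1 := pm_wd σ.symm _ _ haa a ha
      have hb1 := pm_wd σ.symm _ _ hba b hb
      rw [Wd, Set.image_pair] at ha1
      obtain ⟨a', ha'⟩ := exists_iA _ ha1
      obtain ⟨b', hb'⟩ := exists_k3 _ hb1
      refine nest (hN.perm σ) a' b' (pm σ.symm c) (pm_nc' σ N _ _ _ ?_)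
      rw [ha', hb', pm_pm, pm_pm, pm_pm]
      exact h

end Pool.Agent.T3R
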