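import Pool.Agent.Lib.T3R.Gen
import Pool.Agent.Lib.T3R.Main

/-!
# Elements of finite order in `H = F / RR`, roots of relators

(helper14, problem MP_6b13af_al)
-/

set_option autoImplicit false

open scoped Classical

namespace Pool.Agent.T3R

open FreeGroup
open Pool.Agent.LTree (NPow GTree)
open Pool.Agent.LOTI (LI LI_free)

theorem ex_congr (i : Fin 4) (hi : ∀ g ∈ RR, ex i g = 1) (g h : F4)
    (hgh : (QuotientGroup.mk g : F4 ⧸ RR) = QuotientGroup.mk h) : ex i g = ex i h := by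
  have h5 := hi _ (QuotientGroup.eq.1 hgh)
  rw [_root_.map_mul, _root_.map_inv] at h5
  exact (inv_mul_eq_one.1 h5)

theorem sgn_RR : ∀ g ∈ RR, sgn g = 1 := by
  intro g hg
  have h1 := (e3.2 g hg).1
  rcases lg3 g with h2 | h2
  · exact h2.1
  · rw [h1] at h2
    exact absurd h2.2.symm m13

theorem xy_mem {K : Type} [Field K] (ω : Kˣ) (h2 : (2 : K) = 0)
    (hω : (ω : K) ^ 2 + ω + 1 = 0) (w : F4)
    (hw : w ∈ Subgroup.closure ({of 0, of 1} : Set F4)) (m : ℕ) (hm : 1 ≤ m)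
    (hwm : w ^ m ∈ RR) (hl : (f1 ω w).l = 1) : w ∈ RR := by
  obtain ⟨a, b', hab⟩ := comm_form 0 1 cxy_mem w hw
  have hab' : (QuotientGroup.mk w : F4 ⧸ RR) = QuotientGroup.mk (of 0 ^ a * of 1 ^ b') := hab
  have hb0 : b' = 0 := by
    have h5 := ex_congr 1 ex_y _ _ hab'
    have h6 := ex_y _ hwm
    rw [map_pow, h5, _root_.map_mul, map_zpow, map_zpow, ex_of, ex_of] at h6
    simp at h6
    rcases h6 with h7 | h7
    · exact h7
    · omega
  subst hb0
  have ha3 : (3 : ℤ) ∣ a := by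
    have h5 : (f1 ω w).l = (f1 ω (of 0 ^ a * of 1 ^ (0 : ℤ))).l := by
      have h6 := (r2mem ω h2 hω _ (QuotientGroup.eq.1 hab')).1.1
      rw [_root_.map_mul, _root_.map_inv, Tg.mul_l, Tg.inv_l] at h6
      exact inv_mul_eq_one.1 h6
    rw [hl, zpow_zero, mul_one, map_zpow, f1_0] at h5
    have h6 : (Tg.lh (K := K)) ((⟨ω, 0, 0, 0⟩ : Tg K) ^ a) = ω ^ a := by
      rw [map_zpow]; rfl
    have h7 : ω ^ a = 1 := by rw [← h6]; exact h5.symm
    have h8 : orderOf ω = 3 := by
      have : Fact (Nat.Prime 3) := ⟨Nat.prime_three⟩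
      refine orderOf_eq_prime (om3 ω hω) ?_
      rintro rfl
      exact om1 1 h2 hω (by simp)
    have h9 := orderOf_dvd_iff_zpow_eq_one.2 h7
    rw [h8] at h9
    exact_mod_cast h9
  obtain ⟨k, rfl⟩ := ha3
  rw [← QuotientGroup.eq_one_iff, hab, zpow_zero, mul_one, zpow_mul]
  have h5 : (QuotientGroup.mk (of 0) : F4 ⧸ RR) ^ (3 : ℤ) = 1 := by
    have h6 : (QuotientGroup.mk (of 0 ^ 3) : F4 ⧸ RR) = 1 := (QuotientGroup.eq_one_iff _).2 x3_mem
    exact_mod_cast h6
  rw [h5, one_zpow]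

theorem zt_mem (w : F4) (hw : w ∈ Subgroup.closure ({of 2, of 3} : Set F4)) (m : ℕ)
    (hm : 1 ≤ m) (hwm : w ^ m ∈ RR) (hl : sgn w = 1) : w ∈ RR := by
  obtain ⟨a, b', hab⟩ := comm_form 2 3 czt_mem w hw
  have hab' : (QuotientGroup.mk w : F4 ⧸ RR) = QuotientGroup.mk (of 2 ^ a * of 3 ^ b') := hab
  have hb0 : b' = 0 := by
    have h5 := ex_congr 3 ex_t _ _ hab'
    have h6 := ex_t _ hwm
    rw [map_pow, h5, _root_.map_mul, map_zpow, map_zpow, ex_of, ex_of] at h6
    simp at h6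
    rcases h6 with h7 | h7
    · exact h7
    · omega
  subst hb0
  have ha2 : (2 : ℤ) ∣ a := by
    have h5 : sgn w = sgn (of 2 ^ a * of 3 ^ (0 : ℤ)) := by
      have h6 := sgn_RR _ (QuotientGroup.eq.1 hab')
      rw [_root_.map_mul, _root_.map_inv] at h6
      exact inv_mul_eq_one.1 h6
    rw [hl, zpow_zero, mul_one, map_zpow, s2] at h5
    rcases Int.even_or_odd a with h8 | h8
    · exact h8.two_dvd
    · rw [Odd.neg_one_zpow h8] at h5
      exact absurd h5 (by decide)
  obtain ⟨k, rfl⟩ := ha2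
  rw [← QuotientGroup.eq_one_iff, hab, zpow_zero, mul_one, zpow_mul]
  have h5 : (QuotientGroup.mk (of 2) : F4 ⧸ RR) ^ (2 : ℤ) = 1 := by
    have h6 : (QuotientGroup.mk (of 2 ^ 2) : F4 ⧸ RR) = 1 := (QuotientGroup.eq_one_iff _).2 z2_mem
    exact_mod_cast h6
  rw [h5, one_zpow]

/-- the commutator of the two letters -/
def c2 : FreeGroup (Fin 2) := of 0 * of 1 * (of 0)⁻¹ * (of 1)⁻¹

/-- the factors of `H` -/
abbrev G1 : Type := FreeGroup (Fin 2) ⧸
  Subgroup.normalClosure ({of 0 ^ 3, c2} : Set (FreeGroup (Fin 2)))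
abbrev G2 : Type := FreeGroup (Fin 2) ⧸
  Subgroup.normalClosure ({of 0 ^ 2, c2} : Set (FreeGroup (Fin 2)))

theorem iA0 : iA (of 0) = of 0 := by rw [iA, FreeGroup.lift_apply_of]; rfl
theorem iA1 : iA (of 1) = of 1 := by rw [iA, FreeGroup.lift_apply_of]; rfl
theorem iB0 : iB (of 0) = of 2 := by rw [iB, FreeGroup.lift_apply_of]; rfl
theorem iB1 : iB (of 1) = of 3 := by rw [iB, FreeGroup.lift_apply_of]; rfl

theorem iA_c2 : iA c2 = cxy := by
  rw [c2, _root_.map_mul, _root_.map_mul, _root_.map_mul, _root_.map_inv, _root_.map_inv, iA0, iA1]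
  rfl

theorem iB_c2 : iB c2 = czt := by
  rw [c2, _root_.map_mul, _root_.map_mul, _root_.map_mul, _root_.map_inv, _root_.map_inv, iB0, iB1]
  rfl

theorem freeProdH : ∃ (j : G1 →* F4 ⧸ RR) (k : G2 →* F4 ⧸ RR),
    (∀ p, j (QuotientGroup.mk p) = QuotientGroup.mk (iA p)) ∧
    (∀ p, k (QuotientGroup.mk p) = QuotientGroup.mk (iB p)) ∧ FreeProd j k := by
  obtain ⟨j, hj⟩ := exists_lift ({of 0 ^ 3, c2} : Set (FreeGroup (Fin 2)))
    ((QuotientGroup.mk' RR).comp iA) (by
      rintro _ (rfl | rfl)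
      · show (QuotientGroup.mk (iA (of 0 ^ 3)) : F4 ⧸ RR) = 1
        rw [map_pow, iA0]
        exact (QuotientGroup.eq_one_iff _).2 x3_mem
      · show (QuotientGroup.mk (iA c2) : F4 ⧸ RR) = 1
        rw [iA_c2]
        exact (QuotientGroup.eq_one_iff _).2 cxy_mem)
  obtain ⟨k, hk⟩ := exists_lift ({of 0 ^ 2, c2} : Set (FreeGroup (Fin 2)))
    ((QuotientGroup.mk' RR).comp iB) (by
      rintro _ (rfl | rfl)
      · show (QuotientGroup.mk (iB (of 0 ^ 2)) : F4 ⧸ RR) = 1
        rw [map_pow, iB0]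
        exact (QuotientGroup.eq_one_iff _).2 z2_mem
      · show (QuotientGroup.mk (iB c2) : F4 ⧸ RR) = 1
        rw [iB_c2]
        exact (QuotientGroup.eq_one_iff _).2 czt_mem)
  refine ⟨j, k, hj, hk, ?_, ?_⟩
  · intro H h1 h2
    have h3 : (⊤ : Subgroup F4) ≤ H.comap (QuotientGroup.mk' _) := by
      rw [← FreeGroup.closure_range_of, Subgroup.closure_le]
      rintro _ ⟨i, rfl⟩
      show (QuotientGroup.mk (of i) : F4 ⧸ RR) ∈ H
      fin_cases i
      · have h4 := h1 (QuotientGroup.mk (of 0))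
        rw [hj] at h4
        exact iA0 ▸ h4
      · have h4 := h1 (QuotientGroup.mk (of 1))
        rw [hj] at h4
        exact iA1 ▸ h4
      · have h4 := h2 (QuotientGroup.mk (of 0))
        rw [hk] at h4
        exact iB0 ▸ h4
      · have h4 := h2 (QuotientGroup.mk (of 1))
        rw [hk] at h4
        exact iB1 ▸ h4
    rw [eq_top_iff]
    intro g _
    obtain ⟨g', rfl⟩ := QuotientGroup.mk_surjective g
    exact h3 (Subgroup.mem_top g')
  · intro Y _ f u
    obtain ⟨L, hL⟩ : ∃ L : F4 →* Y, L = FreeGroup.lift ![f (QuotientGroup.mk (of 0)),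
      f (QuotientGroup.mk (of 1)), u (QuotientGroup.mk (of 0)), u (QuotientGroup.mk (of 1))] :=
      ⟨_, rfl⟩
    have hF : ∀ p, L (iA p) = f (QuotientGroup.mk p) := by
      intro p
      have h : L.comp iA = f.comp (QuotientGroup.mk' _) := by
        refine FreeGroup.ext_hom _ _ fun i => ?_
        show L (iA (of i)) = f (QuotientGroup.mk (of i))
        rw [iA, FreeGroup.lift_apply_of, hL]
        fin_cases i
        · show (FreeGroup.lift _ : F4 →* Y) (of 0) = _
          rw [FreeGroup.lift_apply_of]; rfl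
        · show (FreeGroup.lift _ : F4 →* Y) (of 1) = _
          rw [FreeGroup.lift_apply_of]; rfl
      exact DFunLike.congr_fun h p
    have hF' : ∀ p, L (iB p) = u (QuotientGroup.mk p) := by
      intro p
      have h : L.comp iB = u.comp (QuotientGroup.mk' _) := by
        refine FreeGroup.ext_hom _ _ fun i => ?_
        show L (iB (of i)) = u (QuotientGroup.mk (of i))
        rw [iB, FreeGroup.lift_apply_of, hL]
        fin_cases i
        · show (FreeGroup.lift _ : F4 →* Y) (of 2) = _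
          rw [FreeGroup.lift_apply_of]; rfl
        · show (FreeGroup.lift _ : F4 →* Y) (of 3) = _
          rw [FreeGroup.lift_apply_of]; rfl
      exact DFunLike.congr_fun h p
    obtain ⟨F, hF2⟩ := exists_lift ({FreeGroup.of 0 ^ 3, FreeGroup.of 2 ^ 2, cxy, czt} : Set F4)
      L (by
        rintro _ (rfl | rfl | rfl | rfl)
        · rw [← iA0, ← map_pow, hF, (QuotientGroup.eq_one_iff _).2
            (Subgroup.subset_normalClosure (by simp)), _root_.map_one]
        · rw [← iB0, ← map_pow, hF', (QuotientGroup.eq_one_iff _).2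
            (Subgroup.subset_normalClosure (by simp)), _root_.map_one]
        · rw [← iA_c2, hF, (QuotientGroup.eq_one_iff _).2
            (Subgroup.subset_normalClosure (by simp)), _root_.map_one]
        · rw [← iB_c2, hF', (QuotientGroup.eq_one_iff _).2
            (Subgroup.subset_normalClosure (by simp)), _root_.map_one])
    refine ⟨F, ?_, ?_⟩
    · intro p
      obtain ⟨p', rfl⟩ := QuotientGroup.mk_surjective p
      rw [hj]
      show F (QuotientGroup.mk (iA p')) = _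
      rw [← hF]
      exact hF2 _
    · intro p
      obtain ⟨p', rfl⟩ := QuotientGroup.mk_surjective p
      rw [hk]
      show F (QuotientGroup.mk (iB p')) = _
      rw [← hF']
      exact hF2 _

/-- elements of finite order in `H` are conjugate into the factors -/
theorem torsion_H (s : F4) (m : ℕ) (hm : 1 ≤ m) (hs : s ^ m ∈ RR) :
    ∃ (g u : F4), (QuotientGroup.mk s : F4 ⧸ RR) = QuotientGroup.mk (g * u * g⁻¹) ∧
      (u ∈ Subgroup.closure ({of 0, of 1} : Set F4) ∨
        u ∈ Subgroup.closure ({of 2, of 3} : Set F4)) := by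
  obtain ⟨j, k, hj, hk, hP⟩ := freeProdH
  obtain ⟨T, hT, h1, _⟩ := prod_tree hP
  have hell : T.Ell (QuotientGroup.mk s : F4 ⧸ RR) := by
    by_contra hne
    obtain ⟨D, hD⟩ := root_bound T _ hne
    have h2 : (QuotientGroup.mk s : F4 ⧸ RR) ^ m = 1 := (QuotientGroup.eq_one_iff (s ^ m)).2 hs
    have h3 := hD (QuotientGroup.mk s) (1 + m * (D + 1)) (by
      rw [pow_add, pow_one, pow_mul, h2, one_pow, mul_one])
    nlinarith
  obtain ⟨v, hv⟩ := hell
  rcases h1 v _ hv with ⟨g, p, h2⟩ | ⟨g, p, h2⟩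
  · obtain ⟨g', rfl⟩ := QuotientGroup.mk_surjective g
    obtain ⟨p', rfl⟩ := QuotientGroup.mk_surjective p
    rw [hj] at h2
    exact ⟨g', iA p', h2, Or.inl (iA_mem p')⟩
  · obtain ⟨g', rfl⟩ := QuotientGroup.mk_surjective g
    obtain ⟨p', rfl⟩ := QuotientGroup.mk_surjective p
    rw [hk] at h2
    exact ⟨g', iB p', h2, Or.inr (iB_mem p')⟩

/-- the root of a relator of a triple is a relator -/
theorem pow_mem_RR (s : F4) (m : ℕ) (hm : 1 ≤ m) (b c : F4)
    (h : Subgroup.normalClosure ({s ^ m, b, c} : Set F4) = RR) : s ∈ RR := by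
  obtain ⟨K, _, ω, h2, hω⟩ := exists_om
  have hs : s ^ m ∈ RR := by
    rw [← h]
    exact Subgroup.subset_normalClosure (by simp)
  obtain ⟨hc1, hc2⟩ := pow_char ω h2 hω s m b c h
  obtain ⟨g, u, h1, hu⟩ := torsion_H s m hm hs
  have hum : u ^ m ∈ RR := by
    have h3 : (QuotientGroup.mk (g * u ^ m * g⁻¹) : F4 ⧸ RR) = 1 := by
      have h4 : g * u ^ m * g⁻¹ = (g * u * g⁻¹) ^ m := by rw [conj_pow]
      rw [h4]
      have h5 : (QuotientGroup.mk ((g * u * g⁻¹) ^ m) : F4 ⧸ RR) =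
        (QuotientGroup.mk (g * u * g⁻¹)) ^ m := rfl
      rw [h5, ← h1]
      exact (QuotientGroup.eq_one_iff (s ^ m)).2 hs
    have h4 := (QuotientGroup.eq_one_iff _).1 h3
    have h5 := Subgroup.Normal.conj_mem (inferInstance : RR.Normal) _ h4 g⁻¹
    have h6 : g⁻¹ * (g * u ^ m * g⁻¹) * g⁻¹⁻¹ = u ^ m := by group
    rwa [h6] at h5
  have hrel := QuotientGroup.eq.1 h1
  have hu1 : u ∈ RR := by
    rcases hu with hu | hu
    · refine xy_mem ω h2 hω u hu m hm hum ?_
      have h3 := (r2mem ω h2 hω _ hrel).1.1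
      rw [_root_.map_mul, _root_.map_mul, _root_.map_mul, _root_.map_inv, _root_.map_inv,
        Tg.mul_l, Tg.mul_l, Tg.mul_l, Tg.inv_l, Tg.inv_l, hc1, inv_one, one_mul] at h3
      have h4 : (f1 ω g).l * (f1 ω u).l * ((f1 ω g).l)⁻¹ = (f1 ω u).l := by
        rw [mul_comm ((f1 ω g).l), mul_inv_cancel_right]
      rwa [h4] at h3
    · refine zt_mem u hu m hm hum ?_
      have h3 := sgn_RR _ hrel
      rw [_root_.map_mul, _root_.map_mul, _root_.map_mul, _root_.map_inv, _root_.map_inv,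
        hc2, inv_one, one_mul] at h3
      have h4 : sgn g * sgn u * (sgn g)⁻¹ = sgn u := by
        rw [mul_comm (sgn g), mul_inv_cancel_right]
      rwa [h4] at h3
  have h3 : g * u * g⁻¹ ∈ RR := Subgroup.Normal.conj_mem inferInstance _ hu1 g
  have h4 := Subgroup.mul_mem _ h3 (Subgroup.inv_mem _ hrel)
  have h5 : g * u * g⁻¹ * (s⁻¹ * (g * u * g⁻¹))⁻¹ = s := by group
  rwa [h5] at h4

end Pool.Agent.T3R
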